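import Pool.Agent.P.MP_f1a348_lc.PG.Iface

/-! Proof of LOC2. -/

namespace Pool.Agent.P.MP_f1a348_lc.CF

open Pool.Agent.P.MP_f1a348_lc.PG

open Matrix Module

namespace LOC2x

variable {p n : ℕ} {ℓ : Ix n → ℕ} {B : Sub p n}

theorem conj {u v C M : Mat p n} (h : u * v = 1) (e : Commute C M) :
    Commute (v * C * u) (v * M * u) := by
  have k : ∀ X Y : Mat p n, v * X * u * (v * Y * u) = v * (X * Y) * u := fun X Y => by
    rw [show v * X * u * (v * Y * u) = v * (X * (u * v) * Y) * u by simp only [mul_assoc], h,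
      mul_one]
  rw [Commute, SemiconjBy, k, k, e.eq]

theorem pr_gr (a : Ix n) (M : Mat p n) : pr ℓ a * M * pr ℓ a = gr ℓ M * pr ℓ a := by
  ext α β
  rw [mul_pr_apply, mul_pr_apply, pr_mul_apply, gr_apply]
  split_ifs <;> first | rfl | omega

/-- a subspace of a block which is stable under the endomorphism field -/
theorem dvd [Fact p.Prime] (h : Str ℓ B) {a : Ix n} {Z : VS p n} (h1 : Z ≤ Vb ℓ a)
    (h2 : ∀ C ∈ Cb ℓ B a a, ∀ z ∈ Z, C *ᵥ z ∈ Z) : eb ℓ B a ∣ finrank (ZMod p) Z := by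
  let W : VS p n := ⨅ D ∈ Com B, Z.comap (pr ℓ a * D).mulVecLin
  have hW : ∀ w, w ∈ W ↔ ∀ D ∈ Com B, pr ℓ a *ᵥ (D *ᵥ w) ∈ Z := fun w => by
    simp only [W, Submodule.mem_iInf, Submodule.mem_comap, mulVecLin_apply, mulVec_mulVec]
  have h3 : W ⊓ Vb ℓ a = Z := by
    refine le_antisymm (fun w hw => ?_) fun z hz => ⟨(hW z).2 fun D hD => ?_, h1 hz⟩
    · have := (hW w).1 hw.1 1 com_one
      rwa [one_mulVec, mem_Vb_iff.1 hw.2] at this
    · exact cb_comp a (h1 hz) ▸ h2 _ (cb_of_com h.alg hD a a) z hz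
  refine h3 ▸ eb_dvd h (fun C hC w hw => (hW _).2 fun D hD => ?_) a
  rw [mulVec_mulVec w]
  exact (hW w).1 hw _ (com_mul hD hC)

end LOC2x

theorem s_LOC2 (p n : ℕ) [Fact p.Prime] : S_LOC2 p n := by
  classical
  intro ℓ ℓ' B Bt B' β a η u v hS hE hm
  obtain ⟨γ, hγ⟩ := Finset.card_pos.1 ((nb_pos ℓ' β).trans_eq hm.symm)
  obtain ⟨-, g1, g2⟩ := Finset.mem_filter.1 hγ
  have h1 : ∀ δ, ℓ' δ = ℓ' γ → ℓ δ = ℓ a ∧ Cb ℓ' B' β δ ≠ ⊥ := fun δ e =>
    ⟨(le_antisymm (hS.ref.fine _ _ e.le) (hS.ref.fine _ _ e.ge)).trans g1,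
      by rwa [Cb_congr rfl e]⟩
  have h2 : (Finset.univ.filter fun δ => ℓ' δ = ℓ' γ) =
      Finset.univ.filter fun δ => ℓ δ = ℓ a ∧ Cb ℓ' B' β δ ≠ ⊥ :=
    Finset.eq_of_subset_of_card_le (Finset.monotone_filter_right _ fun δ _ => h1 δ)
      (hm.trans (nb_eq hS.str' g2)).le
  have hP : ec ℓ' B' β * pr ℓ a = pr ℓ' γ := by
    rw [ec, pr, pr, diagonal_mul_diagonal]
    congr 1
    funext δ
    have := Finset.ext_iff.1 h2 δ
    simp only [Finset.mem_filter, Finset.mem_univ, true_and] at this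
    by_cases e1 : ℓ δ = ℓ a <;> by_cases e2 : Cb ℓ' B' β δ = ⊥ <;> simp [this, e1, e2]
  have hP' : pr ℓ' γ = v * (η * pr ℓ a) * u := by
    rw [mul_assoc, mul_assoc, hE.dgu.comm_pr, ← mul_assoc η, hE.conj, mul_assoc u, hP,
      ← mul_assoc, hE.vu, one_mul]
  have hx : (Pi.single γ 1 : Vec p n) ∈ Vb ℓ' γ := single_mem_Vb rfl 1
  have hY : ∀ y ∈ orb (Cb ℓ' B' γ γ) (Pi.single γ 1 : Vec p n), y ∈ Vb ℓ' γ := by
    rintro _ ⟨C, hC, rfl⟩
    exact cb_mulVec_mem hC _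
  have hu : Function.Injective u.mulVecLin := Function.LeftInverse.injective (g := (v *ᵥ ·))
    fun y => by simp [hE.vu]
  rw [eb_eq hS.str' g2, eb.eq_1 ℓ', ← finrank_orb_cb hS.str' hx (by simp) γ,
    (Submodule.equivMapOfInjective _ hu _).finrank_eq]
  refine LOC2x.dvd hS.str ?_ ?_
  · rintro _ ⟨y, hy, rfl⟩
    exact hE.dgu.mulVec_mem fun δ e => hY y hy δ fun e' => e (h1 δ e').1
  · rintro C hC _ ⟨_, ⟨D, hD, rfl⟩, rfl⟩
    have c1 : Commute (v * C * u) (pr ℓ' γ) := hP' ▸ LOC2x.conj hE.uv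
      (Commute.mul_right (hC.1 η (hS.le hE.mem)) ((cb_right hC).trans (cb_left hC).symm))
    have c2 : v * C * u * pr ℓ' γ ∈ Cb ℓ' B' γ γ := by
      refine ⟨?_, by rw [← mul_assoc, ← c1.eq]; simp only [mul_assoc, pr_mul_pr]⟩
      rw [hS.ref.eq]
      rintro _ ⟨b, hb, rfl⟩
      have t1 := hS.ref.tri b hb
      simp only [LinearMap.comp_apply, cj_apply, st_one, one_mul, mul_one] at t1 ⊢
      have c3 := (c1.mul_right (LOC2x.conj hE.uv (hC.1 b (hS.le hb)))).mul_right c1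
      rw [LOC2x.pr_gr, gr_mul (hE.triv.mul t1) hE.triu, gr_mul hE.triv t1, hE.gru, hE.grv,
        one_mul, mul_one] at c3
      rw [mul_assoc, (dg_gr b).comm_pr, c3.eq, c1.eq, mul_assoc (gr ℓ' b)]
    refine ⟨_, ⟨_, cb_mul c2 hD, rfl⟩, ?_⟩
    rw [mul_assoc _ _ D, cb_left hD]
    simp only [evx_apply, mulVecLin_apply, mulVec_mulVec, ← mul_assoc, hE.uv, one_mul]

end Pool.Agent.P.MP_f1a348_lc.CF
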