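import Pool.Agent.P.MP_f1a348_lc.PG.Iface

/-! Project PG: the canonical subspaces do not depend on traces. -/

namespace Pool.Agent.P.MP_f1a348_lc.CF

open Pool.Agent.P.MP_f1a348_lc.PG

open Matrix Module

namespace HINVx

variable {p n : ℕ}

/-- `y ↦ (y.1, y.2 + k y.1)` -/
noncomputable def sk (k : Vec p n →ₗ[ZMod p] Vec p n) : HH p n ≃ₗ[ZMod p] HH p n :=
  (LinearEquiv.refl _ _).skewProd (LinearEquiv.refl _ _) k

/-- `z ↦ (z.1 + k z.2, z.2)` -/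
noncomputable def sr (k : Vec p n →ₗ[ZMod p] Vec p n) : HH p n ≃ₗ[ZMod p] HH p n :=
  LinearEquiv.prodComm _ _ _ ≪≫ₗ sk k ≪≫ₗ LinearEquiv.prodComm _ _ _

theorem sk_apply (k : Vec p n →ₗ[ZMod p] Vec p n) (y : HH p n) :
    sk k y = (y.1, y.2 + k y.1) := rfl

theorem sr_apply (k : Vec p n →ₗ[ZMod p] Vec p n) (y : HH p n) :
    sr k y = (y.1 + k y.2, y.2) := rfl

theorem map_eq {X : Type} [AddCommGroup X] [Module (ZMod p) X] {A A' : Submodule (ZMod p) (HH p n)}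
    {f f' : HH p n →ₗ[ZMod p] X} (e : HH p n ≃ₗ[ZMod p] HH p n) (h : ∀ y, y ∈ A' ↔ e y ∈ A)
    (h' : ∀ y ∈ A', f' y = f (e y)) : A'.map f' = A.map f := by
  ext x
  refine ⟨fun ⟨y, a, b⟩ => ⟨e y, (h y).1 a, (h' y a).symm.trans b⟩, fun ⟨y, a, b⟩ => ?_⟩
  obtain ⟨y, rfl⟩ := e.surjective y
  exact ⟨y, (h y).2 a, (h' y ((h y).2 a)).trans b⟩

end HINVx

open HINVx

theorem s_HINV (p n : ℕ) [Fact p.Prime] (hDEC : S_DEC p n) (hPOPN : S_POPN p) :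
    S_HINV p n := by
  intro ℓ s a θ τ hs h1 h2
  obtain ⟨k0, k1, ψ, hd, hk⟩ := (hDEC ℓ s a hs).1 τ h1 h2
  have key : ∀ q ∈ Qs ℓ s a, ∀ y, hat ℓ s a (θ + τ) (sk (-k0) q) y =
      sr ψ (hat ℓ s a θ q (sk k1 y)) := fun q hq y => by
    refine Prod.ext ?_ rfl
    have e : cmb (Cso ℓ s (a 2).rev (a 1)) q.2 = cmb (Cso ℓ s (a 2).rev (a 1)) (q.2 + (-k0) q.1) +
        cmb (Cso ℓ s (a 2).rev (a 1)) (k0 q.1) := by rw [← cmb_add]; simp
    rw [sr_apply]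
    simp only [hat_fst, sk_apply, au_add, hd q.1 hq.1 y.1 trivial]
    rw [e, cmb_add _ y.2, add_mulVec, add_mulVec,
      show (hat ℓ s a θ q (y.1, y.2 + k1 y.1)).2 =
        fun i => ip ((Cso ℓ s (a 1).rev (a 0)).getD i.val 0 *ᵥ q.1) y.1 from rfl]
    abel
  have hQ : ∀ q, sk (-k0) q ∈ Qs ℓ s a ↔ q ∈ Qs ℓ s a := fun q =>
    and_congr Iff.rfl (forall₂_congr fun α h => by simp [sk_apply, hk q.1 α h])
  have hr : ∀ q ∈ Qs ℓ s a, LinearMap.range (hat ℓ s a (θ + τ) (sk (-k0) q)) =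
      (LinearMap.range (hat ℓ s a θ q)).map (sr ψ).toLinearMap := fun q hq => by
    rw [show hat ℓ s a (θ + τ) (sk (-k0) q) = (sr ψ).toLinearMap ∘ₗ hat ℓ s a θ q ∘ₗ
      (sk k1).toLinearMap from LinearMap.ext (key q hq), LinearMap.range_comp,
      LinearEquiv.range_comp]
  refine ⟨fun q hq => ⟨_, (hQ q).2 hq, rfl, map_eq (sk k1) (fun y => and_congr
    (and_congr Iff.rfl Iff.rfl) Iff.rfl) fun y hy => congrArg t2 (Prod.ext rfl ?_)⟩, fun r => ?_⟩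
  · change (hat ℓ s a (θ + τ) (sk (-k0) q) y).1 = (hat ℓ s a θ q (sk k1 y)).1
    have : (hat ℓ s a θ q (sk k1 y)).2 = 0 := hy.2
    rw [key q hq, sr_apply, this, map_zero, add_zero]
  have hL : ∀ q, sk (-k0) q ∈ Low ℓ s a (θ + τ) r ↔ q ∈ Low ℓ s a θ r := fun q =>
    (and_congr (hQ q) Iff.rfl).trans (and_congr_right fun h => by
      rw [hr q h, LinearEquiv.finrank_map_eq])
  have hR : Rh ℓ s a (θ + τ) r = (Rh ℓ s a θ r).map (sr ψ).toLinearMap :=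
    hPOPN _ _ _ _ _ _ _ (sk (-k0)) (sr ψ) _ ((sk (-k0)).toEquiv.bijOn fun q => hL q)
      fun q hq => hr q hq.1
  have hR' : ∀ z, sr ψ z ∈ Rh ℓ s a (θ + τ) r ↔ z ∈ Rh ℓ s a θ r := fun z => by
    rw [hR, Submodule.mem_map_equiv, LinearEquiv.symm_apply_apply]
  refine ⟨fun q hq => ⟨_, (hL q).2 hq, rfl⟩, congrArg (Submodule.map t1) (Submodule.ext fun x => ?_),
    map_eq (sk k1) (fun y => and_congr (and_congr Iff.rfl Iff.rfl) ?_) fun _ _ => rfl⟩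
  · simpa [sr_apply] using hR' (x, 0)
  · simp only [SetLike.mem_coe, Submodule.mem_iInf, Submodule.mem_comap]
    rw [(sk (-k0)).surjective.forall]
    exact forall_congr' fun q => ⟨fun h hq => (hR' _).1 (key q hq.1 y ▸ h ((hL q).2 hq)),
      fun h hq => key q ((hL q).1 hq).1 y ▸ (hR' _).2 (h ((hL q).1 hq))⟩

end Pool.Agent.P.MP_f1a348_lc.CF
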