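import Pool.Agent.P.MP_f1a348_lc.PG.Iface

/-!
Project PG, task NAT1: naturality of the lifts and of the subspaces `Sp`, `D2`, `D3`.
-/

namespace Pool.Agent.P.MP_f1a348_lc.CF

open Pool.Agent.P.MP_f1a348_lc.PG

open Matrix Module

namespace NAT1x

variable {p n : ℕ} {ℓ : Ix n → ℕ} {φ f : Mat p n} {s s' : Side p n}

theorem lf_conj (h : Nt ℓ φ s s') (hl : Lab ℓ) {t : ℕ} {z g : Mat p n}
    (hg : Lf ℓ s.T s.T t z g) : Lf ℓ s'.T s'.T t (cj (gr ℓ φ) z) (φ * g * st φ) ∧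
    kap ℓ s'.T t (φ * g * st φ) = pull1 (st (gr ℓ φ)) (kap ℓ s.T t g) := by
  have h1 : Lf ℓ s.T s'.T t (gr ℓ φ) φ := ⟨h.par, rfl, by rw [h.T, sub_self]; exact zero_mem _⟩
  refine ⟨(h1.mul hg).mul (h1.star hl), ?_⟩
  have e : pull1 (φ * g * st φ) s'.T - s'.T = pull1 (st φ) (pull1 g s.T - s.T) := by
    rw [map_sub, pull1_mul, pull1_mul, h.T, (h.symm hl).T]
  rw [kap, kap, e, cmp_pull1 hl (h.par.star hl).1 hg.2.2, gr_st hl]

theorem sp_le (h : Nt ℓ φ s s') (hl : Lab ℓ) (t : ℕ) {w : Frm p n} (hw : w ∈ Sp ℓ s.T t) :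
    pull1 (st (gr ℓ φ)) w ∈ Sp ℓ s'.T t := by
  have : (Sp ℓ s.T t).map (pull1 (st (gr ℓ φ))) ≤ Sp ℓ s'.T t := by
    rw [Sp, Submodule.map_span, Submodule.span_le]
    rintro _ ⟨_, ⟨g, hg, rfl⟩, rfl⟩
    obtain ⟨h1, h2⟩ := lf_conj h hl hg
    rw [(h.lev hl).un.cj_one] at h1
    rw [← h2]
    exact kap_mem_Sp h1
  exact this ⟨w, hw, rfl⟩

theorem sh_le (h : Nt ℓ φ s s') (hl : Lab ℓ) (t : ℕ) {y : ZMod p × Frm p n}
    (hy : y ∈ Sh ℓ s t) : (y.1, pull1 (st (gr ℓ φ)) y.2) ∈ Sh ℓ s' t := by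
  have : (Sh ℓ s t).map (LinearMap.prodMap LinearMap.id (pull1 (st (gr ℓ φ)))) ≤ Sh ℓ s' t := by
    rw [Sh, Submodule.map_span, Submodule.span_le]
    rintro _ ⟨_, ⟨g, hg, rfl⟩, rfl⟩
    obtain ⟨h1, h2⟩ := lf_conj h hl hg
    rw [(h.lev hl).cj_z0, ← (h.lev hl).z0, ← h.B] at h1
    refine Submodule.subset_span ⟨_, h1, ?_⟩
    rw [h2]; rfl
  exact this ⟨y, hy, rfl⟩

theorem cn_nat (h : Lev ℓ f) (L : List (Mat p n)) (y : ZMod p × Frm p n) :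
    cn (L.map (cj f)) (y.1, pull1 (st f) y.2) = act f (cn L y) := by
  funext k
  simp only [cn, act_apply, LinearMap.coe_mk, AddHom.coe_mk]
  split_ifs with e
  · rw [Matrix.mulVec_smul, h.par.mulVec_e0]
  · rw [getD_map_lin, pull1, con_pull, st_st]
    have := h.un.cj_cj (L.getD ((k - 1) / 3) 0)
    rw [cj_apply, st_st] at this
    rw [this]

theorem tn_nat (h : Lev ℓ f) (L : List (Mat p n)) (τ : Tup p n) :
    tn (L.map (cj f)) (act f τ) = ((tn L τ).1, pull1 (st f) (tn L τ).2) := by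
  simp only [tn, act_apply, LinearMap.coe_mk, AddHom.coe_mk, List.length_map]
  refine Prod.ext ?_ ?_
  · show (f *ᵥ τ 0) (c0 n) = τ 0 (c0 n)
    rw [h.par.1.mulVec_c0, h.par.2.2, one_mul]
  · dsimp only
    rw [map_sum]
    refine Finset.sum_congr rfl fun x _ => ?_
    rw [getD_map_lin, pull1, pull_trf, st_st, cj_apply]

theorem amb_act (h : Lev ℓ f) {K : ℕ} {τ : Tup p n} (hτ : τ ∈ Amb K) : act f τ ∈ Amb K := by
  refine ⟨fun α hα => ?_, fun k hk => ?_⟩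
  · have e : τ 0 = τ 0 (c0 n) • e0 := by
      funext β
      by_cases hb : β = c0 n
      · subst hb; simp [e0]
      · rw [hτ.1 β hb]; simp [e0, hb]
    rw [act_apply, e, Matrix.mulVec_smul, h.par.mulVec_e0]
    simp [e0, hα]
  · rw [act_apply, hτ.2 k hk, Matrix.mulVec_zero]

theorem d2_le (h : Nt ℓ φ s s') (hl : Lab ℓ) (t : ℕ) {τ : Tup p n} (hτ : τ ∈ D2 ℓ s t) :
    act (gr ℓ φ) τ ∈ D2 ℓ s' t := by
  obtain ⟨y, hy, rfl⟩ := hτ
  exact ⟨_, sh_le h hl t hy, by rw [h.col hl, cn_nat (h.lev hl)]⟩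

theorem d3_le (h : Nt ℓ φ s s') (hl : Lab ℓ) (t : ℕ) {τ : Tup p n} (hτ : τ ∈ D3 ℓ s t) :
    act (gr ℓ φ) τ ∈ D3 ℓ s' t := by
  refine ⟨?_, ?_⟩
  · rw [h.col hl, List.length_map]; exact amb_act (h.lev hl) hτ.1
  · show tn (CoL ℓ s') (act (gr ℓ φ) τ) ∈ Sh ℓ s' t
    rw [h.col hl, tn_nat (h.lev hl)]
    exact sh_le h hl t hτ.2

theorem act_eq (hu : Un f) {D D' : Submodule (ZMod p) (Tup p n)} (h1 : ∀ τ ∈ D, act f τ ∈ D')
    (h2 : ∀ τ ∈ D', act (st f) τ ∈ D) : D' = D.map (act f) := by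
  refine le_antisymm (fun τ hτ => ⟨_, h2 τ hτ, by rw [← act_mul, hu.mul_st, act_one]⟩) ?_
  rintro _ ⟨τ, hτ, rfl⟩; exact h1 τ hτ

end NAT1x

open NAT1x in
theorem s_NAT1 (p n : ℕ) [Fact p.Prime] : S_NAT1 p n := by
  intro ℓ φ s s' t hs h
  have hl := hs.str.lab
  have hu := (h.lev hl).un
  refine ⟨fun z g hg => lf_conj h hl hg, ?_, ?_, ?_⟩
  · apply le_antisymm
    · intro w hw
      have := sp_le (h.symm hl) hl t hw
      rw [gr_st hl, st_st] at this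
      exact ⟨pull1 (gr ℓ φ) w, this, hu.pull1_st w⟩
    · rintro _ ⟨w, hw, rfl⟩; exact sp_le h hl t hw
  · exact act_eq hu (fun τ hτ => d2_le h hl t hτ)
      fun τ hτ => gr_st hl φ ▸ d2_le (h.symm hl) hl t hτ
  · exact act_eq hu (fun τ hτ => d3_le h hl t hτ)
      fun τ hτ => gr_st hl φ ▸ d3_le (h.symm hl) hl t hτ

end Pool.Agent.P.MP_f1a348_lc.CF
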