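import Pool.Agent.P.MP_f1a348_lc.PG.Iface

/-!
Project PG, task NAT3: naturality of the subspaces `D4`, `D5`, `D6`.
-/

namespace Pool.Agent.P.MP_f1a348_lc.CF

open Pool.Agent.P.MP_f1a348_lc.PG

open Matrix Module

namespace NAT3x

variable {p n : ℕ} {ℓ : Ix n → ℕ} {φ f : Mat p n} {s s' : Side p n}

/-- the action on the first component -/
def FF (hu : Un f) : HH p n ≃ₗ[ZMod p] HH p n where
  toFun y := (f *ᵥ y.1, y.2)
  invFun y := (st f *ᵥ y.1, y.2)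
  map_add' y z := Prod.ext (Matrix.mulVec_add f y.1 z.1) rfl
  map_smul' c y := Prod.ext (Matrix.mulVec_smul f c y.1) rfl
  left_inv y := Prod.ext (hu.st_mulVec y.1) rfl
  right_inv y := Prod.ext (hu.mulVec_st y.1) rfl

theorem au_nat (hu : Un f) (θ : Frm p n) (u y : Vec p n) :
    au (pull1 (st f) θ) (f *ᵥ u) (f *ᵥ y) = f *ᵥ au θ u y := by
  refine ip_ext fun z => ?_
  rw [ip_au, ip_mulVec, ip_au, ev_pull1]
  congr 1
  funext j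
  fin_cases j
  · exact hu.st_mulVec u
  · exact hu.st_mulVec y
  · rfl

theorem cmb_nat (f : Mat p n) (L : List (Mat p n)) (c : Vec p n) :
    cmb (L.map (cj f)) c = cj f (cmb L c) := by
  rw [cmb, cmb, map_sum]
  exact Finset.sum_congr rfl fun α _ => by rw [getD_map_lin, map_smul]

theorem hat_nat (h : Nt ℓ φ s s') (hl : Lab ℓ) (a : Fin 3 → Ix n) (θ : Frm p n) (q y : HH p n) :
    hat ℓ s' a (pull1 (st (gr ℓ φ)) θ) (gr ℓ φ *ᵥ q.1, q.2) (gr ℓ φ *ᵥ y.1, y.2) =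
      (gr ℓ φ *ᵥ (hat ℓ s a θ q y).1, (hat ℓ s a θ q y).2) := by
  have hu := (h.lev hl).un
  refine Prod.ext ?_ (funext fun i => ?_)
  · rw [hat_fst, hat_fst, h.cso hl, h.cso hl, cmb_nat, cmb_nat]
    dsimp only
    rw [au_nat hu, hu.cj_mulVec, hu.cj_mulVec, Matrix.mulVec_add, Matrix.mulVec_add]
  · dsimp only
    rw [hat_snd, hat_snd, h.cso hl, getD_map_lin]
    dsimp only
    rw [hu.cj_mulVec, hu.ip]

theorem range_nat (h : Nt ℓ φ s s') (hl : Lab ℓ) (a : Fin 3 → Ix n) (θ : Frm p n) (q : HH p n) :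
    LinearMap.range (hat ℓ s' a (pull1 (st (gr ℓ φ)) θ) (gr ℓ φ *ᵥ q.1, q.2)) =
      (LinearMap.range (hat ℓ s a θ q)).map (FF (h.lev hl).un).toLinearMap := by
  apply le_antisymm
  · rintro _ ⟨y, rfl⟩
    obtain ⟨z, rfl⟩ := (FF (h.lev hl).un).surjective y
    exact ⟨_, ⟨z, rfl⟩, (hat_nat h hl a θ q z).symm⟩
  · rintro _ ⟨_, ⟨y, rfl⟩, rfl⟩
    exact ⟨_, hat_nat h hl a θ q y⟩

theorem low_nat [Fact p.Prime] (h : Nt ℓ φ s s') (hl : Lab ℓ) {a : Fin 3 → Ix n} {θ : Frm p n}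
    {r : ℕ} {q : HH p n} (hq : q ∈ Low ℓ s a θ r) :
    (gr ℓ φ *ᵥ q.1, q.2) ∈ Low ℓ s' a (pull1 (st (gr ℓ φ)) θ) r := by
  refine ⟨⟨(h.lev hl).dg.mulVec_mem hq.1.1, fun α hα => hq.1.2 α ?_⟩, ?_⟩
  · rwa [h.cso hl, List.length_map] at hα
  · rw [range_nat h hl, LinearEquiv.finrank_map_eq]; exact hq.2

theorem low_bij [Fact p.Prime] (h : Nt ℓ φ s s') (hl : Lab ℓ) (a : Fin 3 → Ix n) (θ : Frm p n)
    (r : ℕ) : Set.BijOn (FF (h.lev hl).un) (Low ℓ s a θ r)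
      (Low ℓ s' a (pull1 (st (gr ℓ φ)) θ) r) := by
  refine ⟨fun q hq => low_nat h hl hq, (FF (h.lev hl).un).injective.injOn, fun q hq => ?_⟩
  have := low_nat (h.symm hl) hl hq
  rw [gr_st hl, (h.lev hl).un.star.pull1_st] at this
  exact ⟨_, this, (FF (h.lev hl).un).apply_symm_apply q⟩

theorem rh_nat [Fact p.Prime] (hP : S_POPN p) (h : Nt ℓ φ s s') (hl : Lab ℓ) (a : Fin 3 → Ix n)
    (θ : Frm p n) (r : ℕ) : Rh ℓ s' a (pull1 (st (gr ℓ φ)) θ) r =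
      (Rh ℓ s a θ r).map (FF (h.lev hl).un).toLinearMap :=
  hP _ _ _ _ _ _ _ _ _ _ (low_bij h hl a θ r) fun q _ => range_nat h hl a θ q

theorem d4_le (h : Nt ℓ φ s s') (hl : Lab ℓ) (a : Fin 3 → Ix n) (θ : Frm p n) (q : HH p n)
    {τ : Tup p n} (hτ : τ ∈ D4 ℓ s a θ q) :
    act (gr ℓ φ) τ ∈ D4 ℓ s' a (pull1 (st (gr ℓ φ)) θ) (gr ℓ φ *ᵥ q.1, q.2) := by
  obtain ⟨y, ⟨h1, h2⟩, rfl⟩ := hτ
  have e := hat_nat h hl a θ q y
  refine ⟨(gr ℓ φ *ᵥ y.1, y.2), ⟨⟨(h.lev hl).dg.mulVec_mem h1.1, trivial⟩, ?_⟩, ?_⟩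
  · exact (congrArg Prod.snd e).trans h2
  · refine Eq.trans ?_ (act_t2 _ (y.1, (hat ℓ s a θ q y).1)).symm
    exact congrArg t2 (Prod.ext rfl (congrArg Prod.fst e))

theorem d5_le [Fact p.Prime] (hP : S_POPN p) (h : Nt ℓ φ s s') (hl : Lab ℓ) (a : Fin 3 → Ix n)
    (θ : Frm p n) (r : ℕ) {τ : Tup p n} (hτ : τ ∈ D5 ℓ s a θ r) :
    act (gr ℓ φ) τ ∈ D5 ℓ s' a (pull1 (st (gr ℓ φ)) θ) r := by
  obtain ⟨x, hx, rfl⟩ := hτ
  refine ⟨gr ℓ φ *ᵥ x, ?_, (act_t1 _ _).symm⟩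
  show (gr ℓ φ *ᵥ x, 0) ∈ Rh ℓ s' a _ r
  rw [rh_nat hP h hl]
  exact ⟨(x, 0), hx, rfl⟩

theorem d6_le [Fact p.Prime] (hP : S_POPN p) (h : Nt ℓ φ s s') (hl : Lab ℓ) (a : Fin 3 → Ix n)
    (θ : Frm p n) (r : ℕ) {τ : Tup p n} (hτ : τ ∈ D6 ℓ s a θ r) :
    act (gr ℓ φ) τ ∈ D6 ℓ s' a (pull1 (st (gr ℓ φ)) θ) r := by
  obtain ⟨y, ⟨h1, h2⟩, rfl⟩ := hτ
  refine ⟨(gr ℓ φ *ᵥ y.1, y.2), ⟨⟨(h.lev hl).dg.mulVec_mem h1.1, trivial⟩, ?_⟩,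
    (act_t1 _ _).symm⟩
  simp only [SetLike.mem_coe, Submodule.mem_iInf, Submodule.mem_comap] at h2 ⊢
  intro q' hq'
  obtain ⟨q, hq, rfl⟩ := (low_bij h hl a θ r).surjOn hq'
  rw [rh_nat hP h hl]
  exact ⟨_, h2 q hq, (hat_nat h hl a θ q y).symm⟩

theorem act_eq (hu : Un f) {D D' : Submodule (ZMod p) (Tup p n)} (h1 : ∀ τ ∈ D, act f τ ∈ D')
    (h2 : ∀ τ ∈ D', act (st f) τ ∈ D) : D' = D.map (act f) := by
  refine le_antisymm (fun τ hτ => ⟨_, h2 τ hτ, by rw [← act_mul, hu.mul_st, act_one]⟩) ?_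
  rintro _ ⟨τ, hτ, rfl⟩; exact h1 τ hτ

end NAT3x

set_option linter.unusedVariables false in
open NAT3x in
theorem s_NAT3 (p n : ℕ) [Fact p.Prime] (hPOPN : S_POPN p) : S_NAT3 p n := by
  intro ℓ φ s s' a θ hs h
  have hl := hs.str.lab
  have hu := (h.lev hl).un
  refine ⟨fun q => act_eq hu (fun τ hτ => d4_le h hl a θ q hτ) fun τ hτ => ?_, fun r =>
    ⟨act_eq hu (fun τ hτ => d5_le hPOPN h hl a θ r hτ) fun τ hτ => ?_,
      act_eq hu (fun τ hτ => d6_le hPOPN h hl a θ r hτ) fun τ hτ => ?_⟩⟩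
  · have := d4_le (h.symm hl) hl a _ _ hτ
    rwa [gr_st hl, hu.star.pull1_st, hu.st_mulVec] at this
  · have := d5_le hPOPN (h.symm hl) hl a _ r hτ
    rwa [gr_st hl, hu.star.pull1_st] at this
  · have := d6_le hPOPN (h.symm hl) hl a _ r hτ
    rwa [gr_st hl, hu.star.pull1_st] at this

end Pool.Agent.P.MP_f1a348_lc.CF
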