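import Pool.Agent.P.MP_f1a348_lc.PG.Iface

/-! Project PG: step BIL. -/

namespace Pool.Agent.P.MP_f1a348_lc.CF

open Pool.Agent.P.MP_f1a348_lc.PG

open Matrix Module

namespace BILx

variable {p n : ℕ} [Fact p.Prime] {ℓ : Ix n → ℕ} {B : Sub p n}

theorem notin (h : Str ℓ B) {b : Ix n} {x y y' : Vec p n} (h0 : x ≠ 0) (hy : y ∈ Vb ℓ b)
    (hy' : y' ∈ Vb ℓ b) (h1 : y ∉ orb (Com B) x) (h2 : y' ∉ orb (Com B) x ⊔ orb (Com B) y) :
    x ∉ orb (Com B) y ⊔ orb (Com B) y' := fun e => by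
  by_cases e' : x ∈ orb (Com B) y
  · exact h1 (mem_of_orb h (stab_orb x) hy e' h0 (self_mem_orb x))
  · exact h2 (sup_comm (orb (Com B) y) _ ▸ exchange h (stab_orb y) hy' e e')

theorem rep (h : Lab ℓ) (b : Ix n) (L : Vec p n →ₗ[ZMod p] Vec p n) :
    ∃ v ∈ Vb ℓ b.rev, ∀ y ∈ Vb ℓ b, ∀ r : ZMod p, L y = r • e0 → ip v y = r := by
  refine ⟨_, pr_mulVec_mem b.rev (st (LinearMap.toMatrix' L) *ᵥ e0), fun y hy r e => ?_⟩
  rw [ip_pr h hy, ← ip_mulVec_right, LinearMap.toMatrix'_mulVec, e, ip_smul_right, e0,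
    ip_single_left, rev_c0, Pi.single_eq_same, mul_one]

theorem sep {ε : Mat p n} (hε : Eps ℓ B ε) {x y : Vec p n} (h0 : y ≠ 0)
    (h : (ε *ᵥ x = x ∧ ε *ᵥ y = 0) ∨ (ε *ᵥ x = 0 ∧ ε *ᵥ y = y)) :
    y ∈ perp (orb (Com B) x) ∧ y ∉ orb (Com B) x := by
  constructor
  · refine mem_perp_orb.2 fun C hC => ?_
    have e : ip (C *ᵥ (ε *ᵥ x)) y = ip (C *ᵥ x) (ε *ᵥ y) := by
      rw [com_mulVec hC hε.mem, ip_mulVec, hε.star]
    rcases h with ⟨h1, h2⟩ | ⟨h1, h2⟩ <;> rw [h1, h2] at e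
    · rw [e]; simp [ip]
    · rw [← e]; simp [ip]
  · intro e
    obtain ⟨C, hC, rfl⟩ := mem_orb.1 e
    have e := com_mulVec hC hε.mem x
    rcases h with ⟨h1, h2⟩ | ⟨h1, h2⟩ <;> rw [h1, h2] at e
    · exact h0 e
    · exact h0 (by rw [← e, Matrix.mulVec_zero])

end BILx

open BILx in
theorem s_BIL (p n : ℕ) [Fact p.Prime] (hWD : S_WD p n) (hADD : S_ADD p n)
    (hPL : S_PL p n) (hSEP : S_SEP p n) : S_BIL p n := by
  intro ℓ B a b c h hB ta tb hc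
  obtain ⟨bf, hb⟩ := hWD ℓ B a b c h hB ta tb hc
  have da := hB a ta
  have db' := hB b tb
  have A1 : ∀ x, ∃ v ∈ Vb ℓ b.rev, x ∈ Vb ℓ a → x ≠ 0 → ∀ y ∈ Vb ℓ b,
      y ∈ perp (orb (Com B) x) → y ∉ orb (Com B) x → ip v y = bf x y := fun x => by
    by_cases hx : x ∈ Vb ℓ a ∧ x ≠ 0
    swap
    · exact ⟨0, zero_mem _, fun h1 h2 => absurd ⟨h1, h2⟩ hx⟩
    obtain ⟨L, hL⟩ := hADD ℓ B 1 1 _ _ b (fun y => bf x y • e0) h (small_orb h hx.1)
      (small_orb h hx.1) (by omega) fun y hy h1 h2 y' hy' h3 h4 => by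
        obtain ⟨ε, hε, e1, e2⟩ := hSEP ℓ B _ a x h ((stab_orb y).sup (stab_orb y')) ta hx.1
          (mem_perp_sup.2 ⟨perp_orb_symm h.alg h1, perp_orb_symm h.alg h3⟩)
          (notin h hx.2 hy hy' h2 h4)
        have m1 := Submodule.mem_sup_left (T := orb (Com B) y') (self_mem_orb (B := B) y)
        have m2 := Submodule.mem_sup_right (S := orb (Com B) y) (self_mem_orb (B := B) y')
        rw [← hb ε hε x hx.1 y hy (Or.inl ⟨e1, e2 _ m1⟩),
          ← hb ε hε x hx.1 y' hy' (Or.inl ⟨e1, e2 _ m2⟩),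
          ← hb ε hε x hx.1 _ (add_mem hy hy') (Or.inl ⟨e1, e2 _ (add_mem m1 m2)⟩), ip_add_right,
          add_smul]
    obtain ⟨v, hv, e⟩ := rep h.lab b L
    exact ⟨v, hv, fun _ _ y hy h1 h2 => e y hy _ (hL y hy h1 h2)⟩
  choose t ht ht' using A1
  obtain ⟨θ, h1, h2⟩ := hPL ℓ B a b.rev t h (by omega) (fun x _ => ht x) fun x hx x0 x' hx' hn => by
    have hW := (small_orb h hx).sup h.alg (small_orb h hx')
    have m1 := Submodule.mem_sup_left (T := orb (Com B) x') (self_mem_orb (B := B) x)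
    have m2 := Submodule.mem_sup_right (S := orb (Com B) x) (self_mem_orb (B := B) x')
    have key : ∀ y ∈ Vb ℓ b, y ∈ perp (orb (Com B) x ⊔ orb (Com B) x') →
        y ∉ orb (Com B) x ⊔ orb (Com B) x' → ip (t (x + x') - t x - t x') y = 0 :=
      fun y hy e1 e2 => by
        obtain ⟨ε, hε, e3, e4⟩ := hSEP ℓ B _ b y h hW.1 tb hy e1 e2
        have k : ∀ z ∈ Vb ℓ a, z ≠ 0 → z ∈ orb (Com B) x ⊔ orb (Com B) x' →
            ip (t z) y = ip (c (1 - (2 : ZMod p) • ε) *ᵥ z) y := fun z hz z0 m => by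
          rw [ht' z hz z0 y hy (perp_anti (hW.1.orb_le m) e1) fun e => e2 (hW.1.orb_le m e),
            hb ε hε z hz y hy (Or.inr ⟨e4 _ m, e3⟩)]
        rw [ip_sub_left, ip_sub_left, k x hx x0 m1, k x' hx' (fun e => hn (e ▸ zero_mem _)) m2,
          k _ (add_mem hx hx') (fun e => hn (eq_neg_of_add_eq_zero_right e ▸
            neg_mem (self_mem_orb x))) (add_mem m1 m2), Matrix.mulVec_add, ip_add_left]
        ring
    refine mem_of_ip h.lab h.alg hW.1 (sub_mem (sub_mem (ht _) (ht _)) (ht _)) fun y hy e1 => ?_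
    by_cases e2 : y ∈ orb (Com B) x ⊔ orb (Com B) x'
    · obtain ⟨v, v1, v2, v3⟩ := out h hW hW (b := b) (by omega)
      have e3 := key _ (sub_mem hy v1) (sub_mem e1 v2) fun e => v3 (by simpa using sub_mem e2 e)
      rw [ip_sub_right, key v v1 v2 v3, sub_zero] at e3
      exact e3
    · exact key y hy e1 e2
  refine ⟨θ, h1, fun ε hε x hx y hy e => ?_⟩
  by_cases x0 : x = 0
  · simp [x0, ip]
  by_cases y0 : y = 0
  · simp [y0, ip]
  obtain ⟨e1, e2⟩ := sep hε y0 e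
  have := e1 _ (h2 x hx x0)
  rw [ip_sub_left, ht' x hx x0 y hy e1 e2, sub_eq_zero] at this
  rw [hb ε hε x hx y hy e, this]

end Pool.Agent.P.MP_f1a348_lc.CF
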