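import Pool.Agent.P.MP_f1a348_lc.PG.Iface

/-! Project PG: classes of blocks and the potential. -/

namespace Pool.Agent.P.MP_f1a348_lc.CF

open Pool.Agent.P.MP_f1a348_lc.PG

open Matrix Module

namespace CLSx

variable {p n : ℕ} {ℓ : Ix n → ℕ} {B : Sub p n}

theorem first_congr {a b : Ix n} (e : ℓ a = ℓ b) : First ℓ B a ↔ First ℓ B b := by
  unfold First
  refine forall_congr' fun β => ?_
  rw [e, Cb_congr (B := B) e (rfl : ℓ β = ℓ β)]

theorem sum_blk (h : Lab ℓ) (f : Ix n → ℕ) (hf : ∀ a b, ℓ a = ℓ b → f a = f b) :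
    ∑ α, f α = ∑ α, if ℓ α = α.val then nb ℓ α * f α else 0 := by
  rw [← Finset.sum_fiberwise Finset.univ h.fst f]
  refine Finset.sum_congr rfl fun α _ => ?_
  split_ifs with e
  · have h1 : (Finset.univ.filter fun β => h.fst β = α) =
        Finset.univ.filter fun β => ℓ β = ℓ α := by
      refine Finset.filter_congr fun β _ => ?_
      rw [Fin.ext_iff, e]
      rfl
    rw [h1, Finset.sum_congr rfl (g := fun _ => f α)
      fun β hβ => hf β α (Finset.mem_filter.1 hβ).2, Finset.sum_const, smul_eq_mul]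
    rfl
  · refine Finset.sum_eq_zero fun β hβ => absurd ?_ e
    have h1 := (Finset.mem_filter.1 hβ).2
    rw [← h1, h.lab_fst]
    rfl

variable [Fact p.Prime]

theorem exists_rep (h : Str ℓ B) (a : Ix n) : ∃ α, Rep ℓ B α ∧ Cb ℓ B α a ≠ ⊥ := by
  classical
  obtain ⟨β, hβ, hm⟩ := Finset.exists_min_image (Finset.univ.filter fun β => Cb ℓ B β a ≠ ⊥) ℓ
    ⟨a, Finset.mem_filter.2 ⟨Finset.mem_univ _, cb_refl h.alg a⟩⟩
  have h1 := (Finset.mem_filter.1 hβ).2
  have e := h.lab.lab_fst β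
  refine ⟨h.lab.fst β, ⟨e, (first_congr e).2 fun γ hγ => ?_⟩, ?_⟩
  · by_contra h2
    exact absurd (hm γ (Finset.mem_filter.2
      ⟨Finset.mem_univ _, cb_trans h (cb_symm h h2) h1⟩)) (not_le.2 hγ)
  · rwa [Cb_congr (B := B) e (rfl : ℓ a = ℓ a)]

theorem rep_unique (h : Str ℓ B) {α β : Ix n} (ha : Rep ℓ B α) (hb : Rep ℓ B β)
    (e : Cb ℓ B α β ≠ ⊥) : α = β := by
  rcases lt_trichotomy (ℓ α) (ℓ β) with h1 | h1 | h1
  · exact absurd (hb.2 α h1) (cb_symm h e)
  · exact Fin.ext (by rw [← ha.1, ← hb.1, h1])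
  · exact absurd (ha.2 β h1) e

theorem scalar (h : Str ℓ B) (H : ∀ a, Triv ℓ B a) : B = Submodule.span (ZMod p) {1} := by
  refine le_antisymm (fun b hb => ?_) (Submodule.span_le.2 (Set.singleton_subset_iff.2 h.alg.one))
  refine Submodule.mem_span_singleton.2 ⟨b (c0 n) (c0 n), mat_ext fun x => ?_⟩
  rw [Matrix.smul_mulVec, Matrix.one_mulVec]
  conv_lhs => rw [eq_sum_pr h.lab x]
  conv_rhs => rw [eq_sum_pr h.lab x]
  rw [Finset.smul_sum, Matrix.mulVec_sum]
  exact Finset.sum_congr rfl fun a _ => (triv_act h (H a) (pr_mulVec_mem a x) hb).symm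

end CLSx

open CLSx in
theorem s_CLS (p n : ℕ) [Fact p.Prime] : S_CLS p n := by
  classical
  intro ℓ B h
  refine ⟨exists_rep h, fun α β => rep_unique h, ?_, fun h0 => scalar h fun a => ?_,
    fun h0 => ?_, ?_⟩
  · unfold Phi
    rw [sum_blk h.lab _ fun a b e => by
      simp only [Triv_congr (B := B) e, first_congr (B := B) e, db_congr (B := B) e]]
    refine Finset.sum_congr rfl fun α _ => ?_
    unfold PG.Rep
    by_cases e1 : ℓ α = α.val <;> by_cases e2 : Triv ℓ B α <;> by_cases e3 : First ℓ B α <;>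
      simp [e1, e2, e3]
  · obtain ⟨α, h1, h2⟩ := exists_rep h a
    by_contra t
    have h3 := (Finset.sum_eq_zero_iff.1 h0) α (Finset.mem_univ _)
    rw [if_pos ⟨fun t' => t ((triv_iff h h2).1 t'), h1.2⟩] at h3
    omega
  · by_contra H
    have h1 : Phi ℓ B = 0 := Finset.sum_eq_zero fun α _ => if_neg fun e => H ⟨α, e.1⟩
    omega
  · unfold Phi
    refine (Finset.sum_le_card_nsmul _ _ (2 + Nat.size (2 * n + 1)) fun α _ => ?_).trans ?_
    · split_ifs
      · exact Nat.add_le_add_left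
          (Nat.size_le_size ((Nat.div_le_self _ _).trans (nb_le ℓ α))) 2
      · exact Nat.zero_le _
    · simp

end Pool.Agent.P.MP_f1a348_lc.CF
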