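import Pool.Agent.P.MP_f1a348_lc.PG.Iface

/-! Project PG: the compression lemma. -/

namespace Pool.Agent.P.MP_f1a348_lc.CF

open Pool.Agent.P.MP_f1a348_lc.PG

open Module

namespace CMPx

theorem sum_le {K V ι : Type} [Field K] [AddCommGroup V] [Module K V] [Module.Finite K V]
    [Fintype ι] {W : ι → Submodule K V} (h : iSupIndep W) : ∑ i, finrank K (W i) ≤ finrank K V := by
  classical
  rw [← finrank_directSum]
  exact LinearMap.finrank_le_finrank_of_injective (f := DirectSum.coeLinearMap W)
    h.dfinsupp_lsum_injective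

end CMPx

theorem s_CMP (p : ℕ) [Fact p.Prime] : S_CMP p := by
  intro X Y _ _ _ _ _ _ A0 A h
  set B := (LinearMap.range A0).mkQ ∘ₗ A ∘ₗ (LinearMap.ker A0).subtype with hB
  obtain ⟨σ, hσ⟩ := B.rangeRestrict.exists_rightInverse_of_surjective B.range_rangeRestrict
  obtain ⟨j, hj⟩ := A0.rangeRestrict.exists_rightInverse_of_surjective A0.range_rangeRestrict
  obtain ⟨ρ, hρ⟩ := (LinearMap.range B).subtype.exists_leftInverse_of_injective
    (Submodule.ker_subtype _)
  obtain ⟨π, hπ⟩ := (LinearMap.range A0).subtype.exists_leftInverse_of_injective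
    (Submodule.ker_subtype _)
  have hσ' : ∀ v, (LinearMap.range A0).mkQ (A (σ v)) = v := fun v =>
    congrArg Subtype.val (LinearMap.congr_fun hσ v)
  have hj' : ∀ y, A0 (j y) = y := fun y => congrArg Subtype.val (LinearMap.congr_fun hj y)
  have hρ' : ∀ v : LinearMap.range B, ρ v = v := fun v => LinearMap.congr_fun hρ v
  have hπ' : ∀ y : LinearMap.range A0, π y = y := fun y => LinearMap.congr_fun hπ y
  let ζ : LinearMap.range B →ₗ[ZMod p] X := (LinearMap.ker A0).subtype ∘ₗ σ
  let ϖ : Y →ₗ[ZMod p] LinearMap.range A0 :=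
    π ∘ₗ (LinearMap.id - A ∘ₗ ζ ∘ₗ ρ ∘ₗ (LinearMap.range A0).mkQ)
  have h1 : ∀ y : LinearMap.range A0, ϖ y = y := fun y => by
    have : (LinearMap.range A0).mkQ y = 0 := (Submodule.Quotient.mk_eq_zero _).2 y.2
    simp only [ϖ, LinearMap.comp_apply, LinearMap.sub_apply, LinearMap.id_apply, this, map_zero,
      sub_zero, hπ']
  have h2 : ∀ v, ϖ (A (ζ v)) = 0 := fun v => by
    have : (LinearMap.range A0).mkQ (A (ζ v)) = v := hσ' v
    simp only [ϖ, LinearMap.comp_apply, LinearMap.sub_apply, LinearMap.id_apply, this, hρ',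
      sub_self, map_zero]
  let T : Module.End (ZMod p) (LinearMap.range A0) := ϖ ∘ₗ A ∘ₗ j
  have key : ∀ μ : ZMod p,
      finrank (ZMod p) (LinearMap.range B) ≤ finrank (ZMod p) (T.eigenspace μ) := by
    intro μ
    let Φ := (-μ • A0 + A) ∘ₗ j.coprod ζ
    have e1 : finrank (ZMod p) (LinearMap.range Φ) ≤ finrank (ZMod p) (LinearMap.range A0) :=
      (Submodule.finrank_mono (LinearMap.range_comp_le_range _ _)).trans (h _)
    have e2 := Φ.finrank_range_add_finrank_ker
    rw [finrank_prod] at e2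
    have e3 : ∀ x, Φ x = -μ • (x.1 : Y) + A (j x.1) + A (ζ x.2) := fun x => by
      have : A0 (ζ x.2) = 0 := (σ x.2).2
      simp only [Φ, LinearMap.comp_apply, LinearMap.coprod_apply, LinearMap.add_apply,
        LinearMap.smul_apply, map_add, hj', this, smul_zero, zero_add]
    have e4 : ∀ x ∈ LinearMap.ker Φ, LinearMap.fst (ZMod p) _ _ x ∈ T.eigenspace μ := fun x hx => by
      have := congrArg ϖ ((e3 x).symm.trans hx)
      rw [map_add, map_add, map_smul, h1, h2, map_zero, add_zero, neg_smul,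
        neg_add_eq_zero] at this
      exact Module.End.mem_eigenspace_iff.2 this.symm
    have e5 : finrank (ZMod p) (LinearMap.ker Φ) ≤ finrank (ZMod p) (T.eigenspace μ) := by
      refine LinearMap.finrank_le_finrank_of_injective (f := (LinearMap.fst _ _ _).restrict e4)
        ((injective_iff_map_eq_zero _).2 fun x hx => ?_)
      have a1 : x.1.1 = 0 := congrArg Subtype.val hx
      have a2 := (e3 x.1).symm.trans x.2
      rw [a1, map_zero, map_zero, Submodule.coe_zero, smul_zero, zero_add, zero_add] at a2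
      have a3 : (LinearMap.range A0).mkQ (A (ζ x.1.2)) = x.1.2 := hσ' _
      rw [a2, map_zero] at a3
      exact Subtype.ext (Prod.ext a1 (Subtype.ext a3.symm))
    omega
  refine le_trans ?_ (CMPx.sum_le T.eigenspaces_iSupIndep)
  have := Finset.card_nsmul_le_sum Finset.univ _ _ fun μ _ => key μ
  rwa [Finset.card_univ, ZMod.card, smul_eq_mul] at this

end Pool.Agent.P.MP_f1a348_lc.CF
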