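import Pool.Agent.P.MP_f1a348_lc.PG.Iface

/-! Project PG: cutting a block. -/

namespace Pool.Agent.P.MP_f1a348_lc.CF

open Pool.Agent.P.MP_f1a348_lc.PG

namespace CUTx

variable {n m : ℕ} {ℓ : Ix n → ℕ} {α β γ : Ix n}

theorem le (h : Lab ℓ) (β : Ix n) : cutL ℓ α m β ≤ β.val := by
  have := h.le β
  unfold cutL
  split_ifs <;> omega

theorem of_le (h : Lab ℓ) (e : cutL ℓ α m β ≤ γ.val) : ℓ β ≤ ℓ γ ∧
    (ℓ α + m ≤ β.val → ℓ α + m ≤ γ.val) ∧
    (2 * n + 1 - (ℓ α + m) ≤ β.val → 2 * n + 1 - (ℓ α + m) ≤ γ.val) := by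
  refine ⟨h.can _ _ ((le_max_left _ _).trans e), ?_⟩
  unfold cutL at e
  split_ifs at e <;> omega

theorem le_of (e : ℓ β ≤ ℓ γ ∧ (ℓ α + m ≤ β.val → ℓ α + m ≤ γ.val) ∧
    (2 * n + 1 - (ℓ α + m) ≤ β.val → 2 * n + 1 - (ℓ α + m) ≤ γ.val)) :
    cutL ℓ α m β ≤ cutL ℓ α m γ := by
  unfold cutL
  split_ifs <;> omega

end CUTx

open CUTx

theorem s_CUT (n : ℕ) : S_CUT n := by
  intro ℓ α m h _ h0 hm
  have hk : ℓ α + m < 2 * n + 1 := by
    have h1 : nb ℓ α ≤ (Finset.Ici (h.fst α)).card := Finset.card_le_card fun β hβ =>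
      Finset.mem_Ici.2 (show ℓ α ≤ β.val from (Finset.mem_filter.1 hβ).2 ▸ h.le β)
    rw [Fin.card_Ici] at h1
    change _ ≤ _ - ℓ α at h1
    omega
  have hκ : ℓ ⟨ℓ α + m, hk⟩ = ℓ α := (h.block _ _).2 ⟨Nat.le_add_right _ _, by simpa using hm⟩
  have f := fun β γ (e : cutL ℓ α m β ≤ cutL ℓ α m γ) => of_le h (e.trans (le h γ))
  refine ⟨⟨fun β γ e => le_of ⟨h.mono e, fun a => a.trans e, fun a => a.trans e⟩,
    fun β γ e => le_of ⟨h.sym _ _ (f _ _ e).1, ?_⟩,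
    fun β e => h.ctr β ((f _ _ e.le).1.antisymm (f _ _ e.ge).1), le h, fun β γ e => le_of (of_le h e)⟩,
    fun β γ e => (f _ _ e).1, Finset.card_lt_card ⟨fun β hβ => ?_, fun e => ?_⟩,
    (Finset.card_le_univ _).trans (by simp), fun β γ e1 e2 e3 => le_of ⟨e1.le, fun a => ?_, fun a => ?_⟩⟩
  · have := (f _ _ e).2
    have := β.2
    have := γ.2
    simp only [Fin.val_rev]
    omega
  · simp only [Finset.mem_filter, Finset.mem_univ, true_and] at hβ ⊢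
    exact (le h β).antisymm (hβ.ge.trans (le_max_left _ _))
  · have := (Finset.mem_filter.1 (e (x := ⟨ℓ α + m, hk⟩) (Finset.mem_filter.2 ⟨Finset.mem_univ _,
      (le h _).antisymm (le_max_of_le_right (le_max_of_le_left (by simp)))⟩))).2
    rw [hκ] at this
    change _ = ℓ α + m at this
    omega
  · by_contra hc
    have a1 := h.mono (show γ ≤ ⟨ℓ α + m, hk⟩ from (not_le.1 hc).le)
    have a2 := h.mono (show (⟨ℓ α + m, hk⟩ : Ix n) ≤ β from a)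
    exact hc (e3 (by omega) a)
  · by_contra hc
    have a0 := h.rev_eq.2 hκ
    have a1 := h.mono (show γ ≤ Fin.rev ⟨ℓ α + m, hk⟩ by rw [Fin.le_def, Fin.val_rev]; dsimp only; omega)
    have a2 := h.mono (show Fin.rev (⟨ℓ α + m, hk⟩ : Ix n) ≤ β by
      rw [Fin.le_def, Fin.val_rev]; dsimp only; omega)
    omega

end Pool.Agent.P.MP_f1a348_lc.CF
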