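import Pool.Agent.P.MP_f1a348_lc.PG.Iface

/-! Project PG: isotropic vectors by the theorem of Chevalley and Warning. -/

namespace Pool.Agent.P.MP_f1a348_lc.CF

open Pool.Agent.P.MP_f1a348_lc.PG

open Matrix Module

namespace CWx

open MvPolynomial in
theorem cw {p : ℕ} [Fact p.Prime] {V : Type} [AddCommGroup V] [Module (ZMod p) V] {m k : ℕ}
    (y : Fin m → V) (q : Fin k → V →ₗ[ZMod p] V →ₗ[ZMod p] ZMod p) (h : 2 * k < m) :
    ∃ c : Fin m → ZMod p, c ≠ 0 ∧ ∀ i, q i (∑ j, c j • y j) (∑ j, c j • y j) = 0 := by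
  classical
  let f : Fin k → MvPolynomial (Fin m) (ZMod p) := fun i =>
    ∑ j, ∑ l, C (q i (y j) (y l)) * (X j * X l)
  have hdeg : ∀ i, (f i).totalDegree ≤ 2 := by
    intro i
    refine totalDegree_finsetSum_le fun j _ => totalDegree_finsetSum_le fun l _ => ?_
    refine (totalDegree_mul _ _).trans ?_
    rw [totalDegree_C, zero_add]
    refine (totalDegree_mul _ _).trans ?_
    rw [totalDegree_X, totalDegree_X]
  have hev : ∀ (c : Fin m → ZMod p) i,
      eval c (f i) = q i (∑ j, c j • y j) (∑ j, c j • y j) := by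
    intro c i
    simp only [f, map_sum, map_mul, eval_C, eval_X, map_smul, LinearMap.sum_apply,
      LinearMap.smul_apply, smul_eq_mul, Finset.mul_sum]
    rw [Finset.sum_comm]
    exact Finset.sum_congr rfl fun j _ => Finset.sum_congr rfl fun l _ => by ring
  have hs : (∑ i, (f i).totalDegree) < Fintype.card (Fin m) := by
    have := Finset.sum_le_card_nsmul Finset.univ (fun i => (f i).totalDegree) 2 fun i _ => hdeg i
    simp only [Finset.card_univ, Fintype.card_fin, smul_eq_mul] at this ⊢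
    omega
  have hd := char_dvd_card_solutions_of_fintype_sum_lt p hs
  by_contra hne
  rw [Fintype.card_eq_nat_card] at hd
  have h1 : Nat.card { x : Fin m → ZMod p // ∀ i, eval x (f i) = 0 } = 1 := by
    rw [Nat.card_eq_one_iff_exists]
    refine ⟨⟨0, fun i => by rw [hev]; simp⟩, fun x => Subtype.ext ?_⟩
    by_contra hx
    exact hne ⟨x.1, hx, fun i => (hev x.1 i).symm.trans (x.2 i)⟩
  rw [h1] at hd
  exact (Fact.out : p.Prime).one_lt.ne' (Nat.dvd_one.1 hd)

end CWx

theorem s_CW (p n : ℕ) [Fact p.Prime] : S_CW p n := by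
  intro ℓ B r W b h hW hd
  set X : VS p n := perp W ⊓ Vb ℓ b with hX
  obtain ⟨Z, hZ⟩ := (W ⊓ X).exists_isCompl
  have h1 : W ⊓ X ⊔ Z ⊓ X = X := by
    rw [← sup_inf_assoc_of_le Z inf_le_right, hZ.sup_eq_top, top_inf_eq]
  have h2 := Submodule.finrank_add_le_finrank_add_finrank (W ⊓ X) (Z ⊓ X)
  rw [h1] at h2
  have h3 : finrank (ZMod p) (W ⊓ X : VS p n) ≤ r * eb ℓ B b :=
    (Submodule.finrank_mono (inf_le_inf_left W inf_le_right)).trans (hW.2 b)
  have h4 := finrank_perp_inf h hW b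
  rw [← hX, ← db_mul_eb h b] at h4
  have h5 := Nat.mul_le_mul_right (eb ℓ B b) hd
  have h6 := eb_pos h.alg b
  have h7 := finrank_cb_le h b.rev b
  have h8 : 2 * finrank (ZMod p) (Cb ℓ B b.rev b) < finrank (ZMod p) (Z ⊓ X : VS p n) := by
    nlinarith
  let y := finBasis (ZMod p) (Z ⊓ X : VS p n)
  let c := finBasis (ZMod p) (Cb ℓ B b.rev b)
  obtain ⟨a, ha0, ha⟩ := CWx.cw (fun j => (y j : Vec p n))
    (fun i => ipL ∘ₗ (c i : Mat p n).mulVecLin) h8
  set u : (Z ⊓ X : VS p n) := ∑ j, a j • y j with hu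
  have hv : ∑ j, a j • (y j : Vec p n) = (u : Vec p n) := by simp [hu]
  rw [hv] at ha
  have hu0 : u ≠ 0 := fun e =>
    ha0 (funext fun j => Fintype.linearIndependent_iff.1 y.linearIndependent a e j)
  have hb : (u : Vec p n) ∈ Vb ℓ b := u.2.2.2
  refine ⟨u, hb, fun C hC => ?_, u.2.2.1, fun hw => hu0 (Subtype.ext ?_)⟩
  · rw [← ip_pr h.lab hb, ← cb_comp b.rev hb]
    have e := congrArg Subtype.val (c.sum_repr ⟨_, cb_of_com h.alg hC b.rev b⟩)
    simp only [AddSubmonoidClass.coe_finsetSum, SetLike.val_smul] at e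
    rw [← e, Matrix.sum_mulVec, ip_sum_left]
    refine Finset.sum_eq_zero fun i _ => ?_
    have := ha i
    simp only [LinearMap.comp_apply, Matrix.mulVecLin_apply, ipL_apply] at this
    rw [Matrix.smul_mulVec, ip_smul_left, this, mul_zero]
  · exact (Submodule.disjoint_def.1 hZ.disjoint) _ ⟨hw, u.2.2⟩ u.2.1

end Pool.Agent.P.MP_f1a348_lc.CF
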