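import Pool.Agent.P.MP_f1a348_lc.PG.Iface

/-!
Project PG: a proper subalgebra lowers the potential.
-/

namespace Pool.Agent.P.MP_f1a348_lc.CF

open Pool.Agent.P.MP_f1a348_lc.PG

open Matrix Module

namespace G1x

variable {p n : ℕ} {ℓ : Ix n → ℕ} {B Bt : Sub p n}

theorem blk_ext (ℓ : Ix n → ℕ) {g h : Mat p n} (H : ∀ a, ∀ x ∈ Vb ℓ a, g *ᵥ x = h *ᵥ x) :
    g = h := by
  ext α β
  simpa [Matrix.mulVec_single_one] using congrFun (H β _ (single_mem_Vb rfl 1)) α

theorem eta_eq [Fact p.Prime] (ht : Alg ℓ Bt) {a : Ix n} {η : Mat p n} (h : Cor ℓ B Bt a η 0) :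
    η = ec ℓ B a := by
  refine blk_ext ℓ fun b x hx => ?_
  have he : ec ℓ B a *ᵥ x = if Cb ℓ B a b = ⊥ then 0 else x := by
    funext β
    rw [ec, Matrix.mulVec_diagonal]
    by_cases e : ℓ β = ℓ b
    · rw [Cb_congr rfl e]
      split_ifs <;> simp
    · split_ifs <;> simp [hx β e]
  rw [he]
  split_ifs with e
  · rw [← mem_Vb_iff.1 hx, Matrix.mulVec_mulVec, h.off b e, Matrix.zero_mulVec]
  · have h1 : (1 - η) *ᵥ x ∈ (im (1 - η) ⊓ Vb ℓ b : VS p n) :=
      ⟨⟨x, rfl⟩, (Dg.one.sub (ht.dg η h.mem)).mulVec_mem hx⟩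
    rw [Submodule.finrank_eq_zero.1 (h.on b e), Submodule.mem_bot, Matrix.sub_mulVec,
      Matrix.one_mulVec, sub_eq_zero] at h1
    exact h1.symm

end G1x

open G1x Classical in
theorem s_G1 (p n : ℕ) [Fact p.Prime] : S_G1 p n := by
  intro ℓ B Bt Φ' h ht hG hn
  by_contra hΦ
  have key : ∀ a, ¬ Triv ℓ B a → ec ℓ B a ∈ Bt ∧ ∀ c ∈ B, ec ℓ B a * c ∈ Bt := by
    intro a ha
    obtain ⟨η, df, hcor, hdf⟩ := hG.2 a ha
    obtain rfl : df = 0 := by omega
    have e := eta_eq ht hcor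
    refine ⟨e ▸ hcor.mem, fun c hc => ?_⟩
    have h1 : ec ℓ B a * c = c * ec ℓ B a :=
      (h.alg.dg c hc).comm_diagonal fun α β e => by rw [Cb_congr rfl e]
    have h2 := hcor.corner c hc
    rw [mul_assoc, e, ← h1, ← mul_assoc, ← e, hcor.idem] at h2
    exact e ▸ h2
  have ind : ∀ A : Finset (Ix n), (∀ a ∈ A, ¬ Triv ℓ B a) → ∀ c ∈ B,
      (Matrix.diagonal fun β => if ∃ a ∈ A, Cb ℓ B a β ≠ ⊥ then 1 else 0 : Mat p n) * c ∈ Bt := by
    intro A
    induction A using Finset.induction_on with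
    | empty => intro _ c _; simp
    | insert a A _ ih =>
      intro hA c hc
      obtain ⟨h1, h2⟩ := key a (hA a (Finset.mem_insert_self _ _))
      have e : (Matrix.diagonal fun β => if ∃ b ∈ insert a A, Cb ℓ B b β ≠ ⊥ then 1 else 0 :
          Mat p n) = ec ℓ B a + (1 - ec ℓ B a) *
            Matrix.diagonal fun β => if ∃ a ∈ A, Cb ℓ B a β ≠ ⊥ then 1 else 0 := by
        rw [ec, ← Matrix.diagonal_one, Matrix.diagonal_sub, Matrix.diagonal_mul_diagonal,
          Matrix.diagonal_add]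
        congr 1
        funext β
        by_cases e : Cb ℓ B a β = ⊥ <;> simp [e]
      rw [e, add_mul, mul_assoc]
      exact add_mem (h2 c hc) (ht.mul _ (sub_mem ht.one h1) _
        (ih (fun b hb => hA b (Finset.mem_insert_of_mem hb)) c hc))
  have heo : ∀ c ∈ B, eo ℓ B * c ∈ Bt := by
    intro c hc
    have h1 := ind (Finset.univ.filter fun a => ¬ Triv ℓ B a) (fun a ha => by simpa using ha) c hc
    have e : eo ℓ B = Matrix.diagonal fun β =>
        if ∃ a ∈ Finset.univ.filter fun a => ¬ Triv ℓ B a, Cb ℓ B a β ≠ ⊥ then 1 else 0 := by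
      rw [eo]
      congr 1
      funext β
      by_cases t : Triv ℓ B β
      · rw [if_pos t, if_neg]
        rintro ⟨a, ha, e⟩
        exact (Finset.mem_filter.1 ha).2 ((triv_iff h e).2 t)
      · rw [if_neg t, if_pos ⟨β, by simpa using t, cb_refl h.alg β⟩]
    rwa [e]
  refine hn fun c hc => ?_
  have e : c = eo ℓ B * c + c (c0 n) (c0 n) • (1 - eo ℓ B * 1) := by
    refine blk_ext ℓ fun a x hx => ?_
    have hcx := (h.alg.dg c hc).mulVec_mem hx
    rw [mul_one, Matrix.add_mulVec, ← Matrix.mulVec_mulVec, Matrix.smul_mulVec, Matrix.sub_mulVec,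
      Matrix.one_mulVec]
    by_cases t : Triv ℓ B a
    · rw [eo_mulVec_triv hx t, eo_mulVec_triv hcx t, zero_add, sub_zero, triv_act h t hx hc]
    · rw [eo_mulVec_ntriv hx t, eo_mulVec_ntriv hcx t, sub_self, smul_zero, add_zero]
  rw [e]
  exact add_mem (heo c hc) (Submodule.smul_mem _ _ (sub_mem ht.one (heo 1 h.alg.one)))

end Pool.Agent.P.MP_f1a348_lc.CF
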