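import Pool.Agent.P.MP_f1a348_lc.PG.Iface

/-!
Project PG: a subspace of small codimension all of whose images are popular.
-/

namespace Pool.Agent.P.MP_f1a348_lc.CF

open Pool.Agent.P.MP_f1a348_lc.PG

open Matrix Module

namespace HALFx

section
variable {K : Type} [Field K] {Q X Y : Type} [AddCommGroup Q] [Module K Q]
  [AddCommGroup X] [Module K X] [AddCommGroup Y] [Module K Y]

/-- the span of the images of `U` -/
noncomputable def sp (S : Submodule K Q) (A : Q →ₗ[K] X →ₗ[K] Y) (U : Submodule K X) :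
    Submodule K Y := ⨆ q ∈ S, U.map (A q)

theorem le_sp {S : Submodule K Q} (A : Q →ₗ[K] X →ₗ[K] Y) (U : Submodule K X) {q : Q}
    (hq : q ∈ S) : U.map (A q) ≤ sp S A U :=
  le_iSup₂ (f := fun q (_ : q ∈ S) => U.map (A q)) q hq

theorem sp_eq (S : Submodule K Q) (A : Q →ₗ[K] X →ₗ[K] Y) (U : Submodule K X) :
    (⨆ B ∈ S.map A, U.map B : Submodule K Y) = sp S A U := by
  refine le_antisymm (iSup₂_le ?_) (iSup₂_le fun q hq => ?_)
  · rintro B ⟨q, hq, rfl⟩
    exact le_sp A U hq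
  · exact le_iSup₂ (f := fun B (_ : B ∈ S.map A) => U.map B) (A q) ⟨q, hq, rfl⟩

theorem finrank_sup_eq [Module.Finite K Y] (Z W : Submodule K Y) :
    finrank K (Z ⊔ W : Submodule K Y) = finrank K Z + finrank K (W.map Z.mkQ) := by
  have h := LinearMap.finrank_range_add_finrank_ker (Z.mkQ ∘ₗ (Z ⊔ W).subtype)
  rw [LinearMap.range_comp, Submodule.range_subtype, Submodule.map_sup, Submodule.mkQ_map_self,
    bot_sup_eq, LinearMap.ker_comp, Submodule.ker_mkQ,
    (Submodule.comapSubtypeEquivOfLe (le_sup_left : Z ≤ Z ⊔ W)).finrank_eq] at h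
  omega

/-- the maps restricted to `U` and read modulo `Z` -/
def Ab (A : Q →ₗ[K] X →ₗ[K] Y) (U : Submodule K X) (Z : Submodule K Y) :
    Q →ₗ[K] U →ₗ[K] Y ⧸ Z where
  toFun q := Z.mkQ ∘ₗ A q ∘ₗ U.subtype
  map_add' q q' := by ext x; simp
  map_smul' c q := by ext x; simp

theorem map_Ab (A : Q →ₗ[K] X →ₗ[K] Y) (U : Submodule K X) (Z : Submodule K Y) (q : Q)
    (U' : Submodule K U) :
    U'.map (Ab A U Z q) = ((U'.map U.subtype).map (A q)).map Z.mkQ := by
  change U'.map (Z.mkQ ∘ₗ A q ∘ₗ U.subtype) = _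
  rw [Submodule.map_comp, Submodule.map_comp]

theorem range_Ab (A : Q →ₗ[K] X →ₗ[K] Y) (U : Submodule K X) (Z : Submodule K Y) (q : Q) :
    LinearMap.range (Ab A U Z q) = (U.map (A q)).map Z.mkQ := by
  rw [LinearMap.range_eq_map, map_Ab, Submodule.map_subtype_top]

theorem rank_le [Module.Finite K Y] (f g : X →ₗ[K] Y) :
    finrank K (LinearMap.range g) ≤
      finrank K (LinearMap.range f) + finrank K (LinearMap.range (f + g)) := by
  have h : LinearMap.range g ≤ LinearMap.range f ⊔ LinearMap.range (f + g) := by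
    rintro _ ⟨x, rfl⟩
    have : g x = f (-x) + (f + g) x := by simp
    rw [this]
    exact Submodule.add_mem_sup ⟨_, rfl⟩ ⟨_, rfl⟩
  exact (Submodule.finrank_mono h).trans (Submodule.finrank_add_le_finrank_add_finrank _ _)

theorem iter {ι : Type} [Fintype ι] (W : ι → Submodule K Y) (R : Submodule K Y)
    (d : Submodule K Y → ℕ) (hW : ∀ i, W i ≤ R)
    (hd : ∀ Z ≤ R, 8 * ∑ i, d (Z ⊔ W i) ≤ 7 * Fintype.card ι * d Z) (t : ℕ) :
    ∀ Z ≤ R, 8 ^ t * ∑ qs : Fin t → ι, d (Z ⊔ ⨆ j, W (qs j)) ≤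
      7 ^ t * Fintype.card ι ^ t * d Z := by
  induction t with
  | zero =>
    intro Z _
    simp
  | succ t ih =>
    intro Z hZ
    have h1 : ∀ (i : ι) (qs : Fin t → ι),
        Z ⊔ ⨆ j, W ((Fin.cons i qs : Fin (t + 1) → ι) j) = (Z ⊔ W i) ⊔ ⨆ j, W (qs j) := by
      intro i qs
      rw [sup_assoc]
      congr 1
      refine le_antisymm (iSup_le fun j => ?_) (sup_le ?_ (iSup_le fun j => ?_))
      · refine Fin.cases ?_ (fun j => ?_) j
        · exact le_sup_left
        · exact le_sup_of_le_right (le_iSup (fun j => W (qs j)) j)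
      · exact le_iSup (fun j => W ((Fin.cons i qs : Fin (t + 1) → ι) j)) 0
      · exact le_iSup (fun j => W ((Fin.cons i qs : Fin (t + 1) → ι) j)) j.succ
    have h2 : ∑ qs : Fin (t + 1) → ι, d (Z ⊔ ⨆ j, W (qs j)) =
        ∑ i, ∑ qs : Fin t → ι, d ((Z ⊔ W i) ⊔ ⨆ j, W (qs j)) := by
      rw [← (Fin.consEquiv fun _ => ι).sum_comp, Fintype.sum_prod_type]
      refine Finset.sum_congr rfl fun i _ => Finset.sum_congr rfl fun qs _ => ?_
      rw [← h1 i qs]
      rfl
    calc 8 ^ (t + 1) * ∑ qs : Fin (t + 1) → ι, d (Z ⊔ ⨆ j, W (qs j))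
        = 8 * ∑ i, 8 ^ t * ∑ qs : Fin t → ι, d ((Z ⊔ W i) ⊔ ⨆ j, W (qs j)) := by
          rw [h2, ← Finset.mul_sum]
          ring
      _ ≤ 8 * ∑ i, 7 ^ t * Fintype.card ι ^ t * d (Z ⊔ W i) :=
          Nat.mul_le_mul_left _ (Finset.sum_le_sum fun i _ => ih _ (sup_le hZ (hW i)))
      _ = 7 ^ t * Fintype.card ι ^ t * (8 * ∑ i, d (Z ⊔ W i)) := by
          rw [← Finset.mul_sum]
          ring
      _ ≤ 7 ^ t * Fintype.card ι ^ t * (7 * Fintype.card ι * d Z) :=
          Nat.mul_le_mul_left _ (hd Z hZ)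
      _ = 7 ^ (t + 1) * Fintype.card ι ^ (t + 1) * d Z := by ring

end

section
variable {p : ℕ} [Fact p.Prime] {Q X Y : Type} [AddCommGroup Q] [Module (ZMod p) Q]
  [AddCommGroup X] [Module (ZMod p) X] [AddCommGroup Y] [Module (ZMod p) Y]
  [Module.Finite (ZMod p) X] [Module.Finite (ZMod p) Y]

theorem l1 (hL1 : S_L1 p) (S : Submodule (ZMod p) Q) (A : Q →ₗ[ZMod p] X →ₗ[ZMod p] Y) (r : ℕ)
    (h : ∀ q ∈ S, finrank (ZMod p) (LinearMap.range (A q)) ≤ r) :
    ∃ U : Submodule (ZMod p) X, finrank (ZMod p) X + finrank (ZMod p) (sp S A U) ≤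
      finrank (ZMod p) U + 4 * r := by
  obtain ⟨U, hU⟩ := hL1 X Y (S.map A) r (by rintro B ⟨q, hq, rfl⟩; exact h q hq)
  exact ⟨U, by rwa [sp_eq] at hU⟩

theorem decay (hL1 : S_L1 p) (S : Submodule (ZMod p) Q) [Fintype S]
    (A : Q →ₗ[ZMod p] X →ₗ[ZMod p] Y) (U : Submodule (ZMod p) X)
    (hU : ∀ U' : Submodule (ZMod p) X, finrank (ZMod p) (sp S A U) + finrank (ZMod p) U' ≤
      finrank (ZMod p) (sp S A U') + finrank (ZMod p) U)
    (Z : Submodule (ZMod p) Y) (hZ : Z ≤ sp S A U) :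
    8 * ∑ q : S, (finrank (ZMod p) (sp S A U) -
        finrank (ZMod p) (Z ⊔ U.map (A q) : Submodule (ZMod p) Y)) ≤
      7 * Fintype.card S * (finrank (ZMod p) (sp S A U) - finrank (ZMod p) Z) := by
  obtain ⟨q0, -, hq0⟩ := Finset.exists_max_image (Finset.univ : Finset S)
    (fun q => finrank (ZMod p) (LinearMap.range (Ab A U Z q))) ⟨0, Finset.mem_univ _⟩
  obtain ⟨U', hU'⟩ := l1 hL1 S (Ab A U Z) _ fun q hq => hq0 ⟨q, hq⟩ (Finset.mem_univ _)
  have h1 := hU (U'.map U.subtype)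
  have h2 : finrank (ZMod p) (U'.map U.subtype) = finrank (ZMod p) U' :=
    Submodule.finrank_map_subtype_eq _ _
  have h3 := finrank_sup_eq Z (sp S A (U'.map U.subtype))
  have h4 : finrank (ZMod p) (sp S A (U'.map U.subtype)) ≤
      finrank (ZMod p) (Z ⊔ sp S A (U'.map U.subtype) : Submodule (ZMod p) Y) :=
    Submodule.finrank_mono le_sup_right
  have h5 : finrank (ZMod p) ((sp S A (U'.map U.subtype)).map Z.mkQ) ≤
      finrank (ZMod p) (sp S (Ab A U Z) U') := by
    refine Submodule.finrank_mono (Submodule.map_le_iff_le_comap.2 (iSup₂_le fun q hq => ?_))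
    rw [← Submodule.map_le_iff_le_comap, ← map_Ab]
    exact le_sp _ _ hq
  have h6 : finrank (ZMod p) (sp S A U) - finrank (ZMod p) Z ≤
      4 * finrank (ZMod p) (LinearMap.range (Ab A U Z q0)) := by omega
  have h7 : Fintype.card S * finrank (ZMod p) (LinearMap.range (Ab A U Z q0)) ≤
      2 * ∑ q : S, finrank (ZMod p) (LinearMap.range (Ab A U Z q)) := by
    have a1 : ∑ q : S, finrank (ZMod p) (LinearMap.range (Ab A U Z (q + q0 : S))) =
        ∑ q : S, finrank (ZMod p) (LinearMap.range (Ab A U Z q)) :=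
      Equiv.sum_comp (Equiv.addRight q0)
        fun q : S => finrank (ZMod p) (LinearMap.range (Ab A U Z q))
    rw [two_mul]
    nth_rewrite 2 [← a1]
    rw [← Finset.sum_add_distrib, ← smul_eq_mul, ← Finset.card_univ, ← Finset.sum_const]
    refine Finset.sum_le_sum fun q _ => ?_
    rw [Submodule.coe_add, map_add]
    exact rank_le _ _
  have h8 : ∑ q : S, (finrank (ZMod p) (sp S A U) -
        finrank (ZMod p) (Z ⊔ U.map (A q) : Submodule (ZMod p) Y)) +
      ∑ q : S, finrank (ZMod p) (LinearMap.range (Ab A U Z q)) =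
      Fintype.card S * (finrank (ZMod p) (sp S A U) - finrank (ZMod p) Z) := by
    rw [← Finset.sum_add_distrib, ← smul_eq_mul, ← Finset.card_univ, ← Finset.sum_const]
    refine Finset.sum_congr rfl fun q _ => ?_
    have a1 := finrank_sup_eq Z (U.map (A q))
    have a2 : finrank (ZMod p) (Z ⊔ U.map (A q) : Submodule (ZMod p) Y) ≤
        finrank (ZMod p) (sp S A U) := Submodule.finrank_mono (sup_le hZ (le_sp A U q.2))
    rw [range_Ab]
    omega
  have h9 := Nat.mul_le_mul_left (Fintype.card S) h6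
  nlinarith

end

end HALFx

open HALFx in
theorem s_HALF (p : ℕ) [Fact p.Prime] (hL1 : S_L1 p) : S_HALF p := by
  intro Q X Y _ _ _ _ _ _ _ _ _ S A r t hr ht
  classical
  have := Fintype.ofFinite S
  obtain ⟨U, hU0⟩ : ∃ U : Submodule (ZMod p) X, ∀ U' : Submodule (ZMod p) X,
      finrank (ZMod p) (sp S A U) + (finrank (ZMod p) X - finrank (ZMod p) U) ≤
        finrank (ZMod p) (sp S A U') + (finrank (ZMod p) X - finrank (ZMod p) U') :=
    ⟨Function.argmin fun U : Submodule (ZMod p) X =>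
      finrank (ZMod p) (sp S A U) + (finrank (ZMod p) X - finrank (ZMod p) U),
      fun U' => Function.argmin_le (fun U : Submodule (ZMod p) X =>
        finrank (ZMod p) (sp S A U) + (finrank (ZMod p) X - finrank (ZMod p) U)) U'⟩
  have hU : ∀ U' : Submodule (ZMod p) X, finrank (ZMod p) (sp S A U) + finrank (ZMod p) U' ≤
      finrank (ZMod p) (sp S A U') + finrank (ZMod p) U := by
    intro U'
    have a1 := hU0 U'
    have a2 := Submodule.finrank_le U
    have a3 := Submodule.finrank_le U'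
    omega
  obtain ⟨U1, hU1⟩ := l1 hL1 S A r hr
  refine ⟨U, by have := hU U1; omega, fun q hq x hx => ?_⟩
  have h1 := iter (fun q : S => U.map (A q)) (sp S A U)
    (fun Z => finrank (ZMod p) (sp S A U) - finrank (ZMod p) Z) (fun q => le_sp A U q.2)
    (decay hL1 S A U hU) t ⊥ bot_le
  simp only [finrank_bot, Nat.sub_zero] at h1
  let G : Finset (Fin t → S) := Finset.univ.filter fun qs =>
    A q x ∈ ⨆ j, LinearMap.range (A (qs j))
  have h2 : Gᶜ.card ≤ ∑ qs : Fin t → S, (finrank (ZMod p) (sp S A U) -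
      finrank (ZMod p) (⊥ ⊔ ⨆ j, U.map (A (qs j)) : Submodule (ZMod p) Y)) := by
    rw [Finset.card_eq_sum_ones]
    refine (Finset.sum_le_sum fun qs hqs => ?_).trans
      (Finset.sum_le_sum_of_subset (Finset.subset_univ _))
    by_contra hc
    rw [bot_sup_eq] at hc
    have a1 : (⨆ j, U.map (A (qs j)) : Submodule (ZMod p) Y) ≤ sp S A U :=
      iSup_le fun j => le_sp A U (qs j).2
    have a2 := Submodule.eq_of_le_of_finrank_le a1 (by omega)
    have a3 : A q x ∈ (⨆ j, U.map (A (qs j)) : Submodule (ZMod p) Y) := by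
      rw [a2]
      exact le_sp A U hq ⟨x, hx, rfl⟩
    refine Finset.mem_compl.1 hqs (Finset.mem_filter.2 ⟨Finset.mem_univ _, ?_⟩)
    exact (iSup_mono fun j => LinearMap.map_le_range) a3
  have h3 : finrank (ZMod p) (sp S A U) ≤ finrank (ZMod p) Y := Submodule.finrank_le _
  have h4 : 2 * Gᶜ.card ≤ Fintype.card S ^ t := by
    have a1 : 8 ^ t * (2 * Gᶜ.card) ≤ 8 ^ t * Fintype.card S ^ t :=
      calc 8 ^ t * (2 * Gᶜ.card) = 2 * (8 ^ t * Gᶜ.card) := by ring
        _ ≤ 2 * (7 ^ t * Fintype.card S ^ t * finrank (ZMod p) Y) :=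
          Nat.mul_le_mul_left _ (((Nat.mul_le_mul_left _ h2).trans h1).trans
            (Nat.mul_le_mul_left _ h3))
        _ = 2 * finrank (ZMod p) Y * 7 ^ t * Fintype.card S ^ t := by ring
        _ ≤ 8 ^ t * Fintype.card S ^ t := Nat.mul_le_mul_right _ ht
    exact Nat.le_of_mul_le_mul_left a1 (by positivity)
  have h5 : G.card + Gᶜ.card = Fintype.card S ^ t := by
    rw [Finset.card_add_card_compl, Fintype.card_fun, Fintype.card_fin]
  let φ : (Fin t → S) → Fin t → Q := fun qs j => qs j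
  have hφ : Function.Injective φ := fun a b h => funext fun j => Subtype.ext (congrFun h j)
  have h6 : {qs : Fin t → Q | ∀ j, qs j ∈ (S : Set Q)} =
      φ '' ((Finset.univ : Finset (Fin t → S)) : Set (Fin t → S)) := by
    ext qs
    constructor
    · intro h
      exact ⟨fun j => ⟨qs j, h j⟩, by simp, rfl⟩
    · rintro ⟨a, -, rfl⟩ j
      exact (a j).2
  have h7 : φ '' (G : Set (Fin t → S)) ⊆ {qs : Fin t → Q | (∀ j, qs j ∈ (S : Set Q)) ∧
      A q x ∈ ⨆ j, LinearMap.range (A (qs j))} := by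
    rintro _ ⟨a, ha, rfl⟩
    exact ⟨fun j => (a j).2, (Finset.mem_filter.1 ha).2⟩
  have h8 := Set.ncard_le_ncard h7 (Set.toFinite _)
  rw [Set.ncard_image_of_injective _ hφ, Set.ncard_coe_finset] at h8
  change {qs : Fin t → Q | ∀ j, qs j ∈ (S : Set Q)}.ncard ≤ 2 * _
  rw [h6, Set.ncard_image_of_injective _ hφ, Set.ncard_coe_finset, Finset.card_univ,
    Fintype.card_fun, Fintype.card_fin]
  omega

end Pool.Agent.P.MP_f1a348_lc.CF
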