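import Pool.Agent.P.MP_f1a348_lc.PG.Iface

/-! Project PG: spaces of maps of bounded rank are compressed. -/

namespace Pool.Agent.P.MP_f1a348_lc.CF

open Pool.Agent.P.MP_f1a348_lc.PG

open Module

namespace L1x

theorem le_map_add {K Y : Type} [Field K] [AddCommGroup Y] [Module K Y] [Module.Finite K Y]
    (R W : Submodule K Y) : finrank K W ≤ finrank K (W.map R.mkQ) + finrank K R := by
  have e := (R.mkQ.domRestrict W).finrank_range_add_finrank_ker
  rw [LinearMap.range_domRestrict, LinearMap.ker_domRestrict, Submodule.ker_mkQ] at e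
  have e2 : finrank K (R.comap W.subtype) ≤ finrank K R := by
    rw [← Submodule.finrank_map_subtype_eq]
    exact Submodule.finrank_mono (Submodule.map_comap_le _ _)
  omega

end L1x

theorem s_L1 (p : ℕ) [Fact p.Prime] (hCMP : S_CMP p) : S_L1 p := by
  intro X Y _ _ _ _ _ _ S r
  induction r using Nat.strong_induction_on generalizing X Y with
  | _ r ih =>
  intro h
  rcases Nat.eq_zero_or_pos r with rfl | hr
  · refine ⟨⊤, ?_⟩
    have e : (⨆ A ∈ S, (⊤ : Submodule (ZMod p) X).map A : Submodule (ZMod p) Y) = ⊥ := by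
      refine eq_bot_iff.2 (iSup₂_le fun A hA => ?_)
      rw [Submodule.map_top, Submodule.finrank_eq_zero.1 (Nat.le_zero.1 (h A hA))]
    rw [e, finrank_bot, finrank_top]
  by_cases h0 : ∃ A0 ∈ S, finrank (ZMod p) (LinearMap.range A0) = r
  swap
  · obtain ⟨U, hU⟩ := ih (r - 1) (by omega) X Y S fun A hA => by
      have h1 := h A hA
      have h2 : finrank (ZMod p) (LinearMap.range A) ≠ r := fun e => h0 ⟨A, hA, e⟩
      omega
    exact ⟨U, by omega⟩
  obtain ⟨A0, hA0, hr0⟩ := h0
  let Φ : (X →ₗ[ZMod p] Y) →ₗ[ZMod p]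
      (LinearMap.ker A0 →ₗ[ZMod p] Y ⧸ LinearMap.range A0) :=
    { toFun := fun A => (LinearMap.range A0).mkQ ∘ₗ A ∘ₗ (LinearMap.ker A0).subtype
      map_add' := fun A B => by ext x; simp
      map_smul' := fun c A => by ext x; simp }
  obtain ⟨U', hU'⟩ := ih (r / 2) (by omega) _ _ (S.map Φ) fun A' hA' => by
    obtain ⟨A, hA, rfl⟩ := hA'
    have h1 := hCMP X Y A0 A fun μ => by
      rw [hr0]; exact h _ (add_mem (S.smul_mem μ hA0) hA)
    rw [hr0] at h1
    have h2 := (Nat.mul_le_mul_right _ (Fact.out : p.Prime).two_le).trans h1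
    change finrank (ZMod p) (LinearMap.range
      ((LinearMap.range A0).mkQ ∘ₗ A ∘ₗ (LinearMap.ker A0).subtype)) ≤ r / 2
    omega
  refine ⟨U'.map (LinearMap.ker A0).subtype, ?_⟩
  have e1 := A0.finrank_range_add_finrank_ker
  have e2 := L1x.le_map_add (LinearMap.range A0)
    (⨆ A ∈ S, (U'.map (LinearMap.ker A0).subtype).map A : Submodule (ZMod p) Y)
  have e3 : (⨆ A ∈ S, (U'.map (LinearMap.ker A0).subtype).map A : Submodule (ZMod p) Y).map
      (LinearMap.range A0).mkQ ≤ ⨆ A' ∈ S.map Φ, U'.map A' := by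
    rw [Submodule.map_le_iff_le_comap]
    refine iSup₂_le fun A hA => ?_
    rw [← Submodule.map_le_iff_le_comap, ← Submodule.map_comp, ← Submodule.map_comp]
    exact le_iSup₂_of_le (f := fun A' (_ : A' ∈ S.map Φ) => U'.map A') (Φ A) ⟨A, hA, rfl⟩ le_rfl
  have e4 := Submodule.finrank_mono e3
  rw [Submodule.finrank_map_subtype_eq]
  omega

end Pool.Agent.P.MP_f1a348_lc.CF
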