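import Pool.Agent.P.MP_f1a348_lc.PG.Iface

/-!
Project PG: the operators `lam c` restricted to a level are the elements of the algebra `AA`.
-/

namespace Pool.Agent.P.MP_f1a348_lc.CF

open Pool.Agent.P.MP_f1a348_lc.PG

open Matrix Module

namespace LAMAAx

variable {p n : ℕ} {ℓ : Ix n → ℕ}

theorem sandwich (h : Lab ℓ) (a : Fin 3 → Ix n) {σ : Fin 3 → Fin 3} (hσ : Function.Bijective σ)
    (C : Fin 3 → Mat p n) :
    (cmp ℓ (key ℓ a) ∘ₗ (perm σ ∘ₗ pull C)) ∘ₗ cmp ℓ (key ℓ a) =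
      perm σ ∘ₗ pull fun j => pr ℓ (a j) * C j * pr ℓ (a (σ j)) :=
  LinearMap.ext fun w => by
    simp only [LinearMap.comp_apply, cmp_key h, pull_perm hσ, pull_pull]

theorem lam_eq (L : List (Mat p n)) (t : ℕ) (c : ℕ → ZMod p) :
    lam ℓ L t c ∘ₗ cmp ℓ t = ∑ x ∈ Finset.range (nc L), c x • ((cmp ℓ t ∘ₗ lamX L x) ∘ₗ cmp ℓ t) :=
  LinearMap.ext fun w => by
    simp [lam, LinearMap.sum_apply, map_sum]

/-- the operators of the form `lam c` on the level `t` -/
def SS (ℓ : Ix n → ℕ) (L : List (Mat p n)) (t : ℕ) :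
    Submodule (ZMod p) (Frm p n →ₗ[ZMod p] Frm p n) where
  carrier := {μ | ∃ c, lam ℓ L t c ∘ₗ cmp ℓ t = μ}
  add_mem' := by
    rintro _ _ ⟨c, rfl⟩ ⟨d, rfl⟩
    exact ⟨c + d, by simp only [lam_eq, Pi.add_apply, add_smul, Finset.sum_add_distrib]⟩
  zero_mem' := ⟨0, by simp only [lam_eq, Pi.zero_apply, zero_smul, Finset.sum_const_zero]⟩
  smul_mem' := by
    rintro e _ ⟨c, rfl⟩
    exact ⟨e • c, by simp only [lam_eq, Pi.smul_apply, smul_eq_mul, mul_smul, Finset.smul_sum]⟩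

theorem pull_upd_add [i : DecidableEq (Fin 3)] (C : Fin 3 → Mat p n) (j : Fin 3) (A B : Mat p n) :
    pull (Function.update C j (A + B)) =
      pull (Function.update C j A) + pull (Function.update C j B) := by
  obtain rfl : i = instDecidableEqFin 3 := Subsingleton.elim _ _
  refine LinearMap.ext fun w => frm_ext fun x => ?_
  have key : ∀ D : Mat p n, (fun k => Function.update C j D k *ᵥ x k) =
      Function.update (fun k => C k *ᵥ x k) j (D *ᵥ x j) := fun D => by
    funext k; by_cases e : k = j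
    · subst e; simp
    · simp [e]
  simp only [LinearMap.add_apply, ev_add, ev_pull, key, Matrix.add_mulVec]
  exact ev_update_add w (fun k => C k *ᵥ x k) j (A *ᵥ x j) (B *ᵥ x j)

theorem pull_upd_smul [i : DecidableEq (Fin 3)] (C : Fin 3 → Mat p n) (j : Fin 3) (c : ZMod p)
    (A : Mat p n) : pull (Function.update C j (c • A)) = c • pull (Function.update C j A) := by
  obtain rfl : i = instDecidableEqFin 3 := Subsingleton.elim _ _
  refine LinearMap.ext fun w => frm_ext fun x => ?_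
  have key : ∀ D : Mat p n, (fun k => Function.update C j D k *ᵥ x k) =
      Function.update (fun k => C k *ᵥ x k) j (D *ᵥ x j) := fun D => by
    funext k; by_cases e : k = j
    · subst e; simp
    · simp [e]
  simp only [LinearMap.smul_apply, ev_smul, ev_pull, key, Matrix.smul_mulVec]
  exact ev_update_smul w (fun k => C k *ᵥ x k) j c (A *ᵥ x j)

/-- `pull` as a multilinear map of the three matrices -/
noncomputable def pullM :
    MultilinearMap (ZMod p) (fun _ : Fin 3 => Mat p n) (Frm p n →ₗ[ZMod p] Frm p n) :=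
  ⟨pull, pull_upd_add, pull_upd_smul⟩

theorem multi_mem {M N : Type} [AddCommGroup M] [Module (ZMod p) M] [AddCommGroup N]
    [Module (ZMod p) N] (f : MultilinearMap (ZMod p) (fun _ : Fin 3 => M) N) (L : Set M)
    (S : Submodule (ZMod p) N) (H : ∀ C : Fin 3 → M, (∀ j, C j ∈ L) → f C ∈ S)
    (C : Fin 3 → M) (hC : ∀ j, C j ∈ Submodule.span (ZMod p) L) : f C ∈ S := by
  have step : ∀ (j : Fin 3) (D : Fin 3 → M), D j ∈ Submodule.span (ZMod p) L →
      (∀ A ∈ L, f (Function.update D j A) ∈ S) → f D ∈ S := fun j D hD hA => by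
    have : Submodule.span (ZMod p) L ≤ S.comap (f.toLinearMap D j) :=
      Submodule.span_le.2 fun A hA' => hA A hA'
    have := this hD
    simpa using this
  refine step 0 C (hC 0) fun A0 h0 => step 1 _ (by simpa using hC 1) fun A1 h1 =>
    step 2 _ (by simpa using hC 2) fun A2 h2 => H _ fun j => ?_
  fin_cases j <;> simp [h0, h1, h2]

theorem gen_mem (L : List (Mat p n)) (t : ℕ) {k : ℕ} (hk : k < 6) (C : Fin 3 → Mat p n)
    (hC : ∀ j, C j ∈ L) : (cmp ℓ t ∘ₗ (perm (pm k) ∘ₗ pull C)) ∘ₗ cmp ℓ t ∈ SS ℓ L t := by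
  obtain ⟨i0, l0, e0⟩ := List.getElem_of_mem (hC 0)
  obtain ⟨i1, l1, e1⟩ := List.getElem_of_mem (hC 1)
  obtain ⟨i2, l2, e2⟩ := List.getElem_of_mem (hC 2)
  have hN : 0 < L.length := by omega
  set N := L.length with hNd
  have a1 : (k + 6 * (i0 + N * (i1 + N * i2))) % 6 = k := by omega
  have a2 : (k + 6 * (i0 + N * (i1 + N * i2))) / 6 = i0 + N * (i1 + N * i2) := by omega
  have a3 : (i0 + N * (i1 + N * i2)) % N = i0 := by
    rw [Nat.add_mul_mod_self_left, Nat.mod_eq_of_lt l0]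
  have a4 : (i0 + N * (i1 + N * i2)) / N = i1 + N * i2 := by
    rw [Nat.add_mul_div_left _ _ hN, Nat.div_eq_of_lt l0, zero_add]
  have a5 : (i1 + N * i2) % N = i1 := by rw [Nat.add_mul_mod_self_left, Nat.mod_eq_of_lt l1]
  have a6 : (i1 + N * i2) / N = i2 := by
    rw [Nat.add_mul_div_left _ _ hN, Nat.div_eq_of_lt l1, zero_add]
  have hx : k + 6 * (i0 + N * (i1 + N * i2)) < nc L := by
    have b1 : i1 + N * i2 + 1 ≤ N * N := by nlinarith
    have b2 : i0 + N * (i1 + N * i2) + 1 ≤ N * (N * N) := by nlinarith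
    have : nc L = 6 * (N * (N * N)) := by rw [nc, ← hNd]; ring
    omega
  have hX : lamX L (k + 6 * (i0 + N * (i1 + N * i2))) = perm (pm k) ∘ₗ pull C := by
    rw [lamX, ← hNd, a1, a2, a3, a4, a5, a6, List.getD_eq_getElem _ _ l0,
      List.getD_eq_getElem _ _ l1, List.getD_eq_getElem _ _ l2, e0, e1, e2]
    congr 2
    funext j; fin_cases j <;> rfl
  refine ⟨Pi.single (k + 6 * (i0 + N * (i1 + N * i2))) 1, ?_⟩
  rw [lam_eq, Finset.sum_eq_single (k + 6 * (i0 + N * (i1 + N * i2)))]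
  · rw [hX, Pi.single_eq_same, one_smul]
  · intro x _ e; rw [Pi.single_eq_of_ne e, zero_smul]
  · intro e; exact absurd (Finset.mem_range.2 hx) e

end LAMAAx

open LAMAAx in
theorem s_LAMAA (p n : ℕ) [Fact p.Prime] : S_LAMAA p n := by
  intro ℓ s a h
  refine ⟨fun c => ?_, fun μ hμ => ?_⟩
  · rw [lam_eq]
    refine Submodule.sum_mem _ fun x _ => Submodule.smul_mem _ _ ?_
    rw [lamX, sandwich h.str.lab a (pm_bij _)]
    refine aa_gen (Equiv.ofBijective _ (pm_bij (x % 6))) fun j => cb_of_com h.str.alg ?_ _ _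
    rw [← h.spL_CL]
    fin_cases j <;> exact getD_mem_spL _ _
  · refine aa_ind (P := fun μ => μ ∈ SS ℓ (CL s) (key ℓ a)) (fun σ C hC => ?_) (zero_mem _)
      (fun x y => add_mem) (fun c x => Submodule.smul_mem _ c) hμ
    obtain ⟨k, hk, e⟩ := exists_pm σ.bijective
    have e1 : perm σ ∘ₗ pull C =
        (cmp ℓ (key ℓ a) ∘ₗ (perm σ ∘ₗ pull C)) ∘ₗ cmp ℓ (key ℓ a) := by
      rw [sandwich h.str.lab a σ.bijective]
      simp only [(hC _).2]
    rw [e1, ← e]
    refine multi_mem (((LinearMap.lcomp (ZMod p) _ (cmp ℓ (key ℓ a))) ∘ₗ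
      (LinearMap.llcomp (ZMod p) _ _ _ (cmp ℓ (key ℓ a) ∘ₗ perm (pm k)))).compMultilinearMap pullM)
      {x | x ∈ CL s} _ (fun D hD => gen_mem _ _ hk D hD) C fun j => ?_
    have := (hC j).1
    rwa [← h.spL_CL] at this

end Pool.Agent.P.MP_f1a348_lc.CF
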