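import Pool.Agent.P.MP_f1a348_lc.PG.Iface

/-! Project PG: a lower bound for the dimension of a corner. -/

namespace Pool.Agent.P.MP_f1a348_lc.CF

open Pool.Agent.P.MP_f1a348_lc.PG

open Matrix Module

theorem s_LOC1 (p n : ℕ) [Fact p.Prime] (hEBAS : S_EBAS p n) : S_LOC1 p n := by
  classical
  intro ℓ ℓ' B Bt B' β a η u v h hη hm
  obtain ⟨γ, hγ⟩ := Finset.card_pos.1 hm
  obtain ⟨e1, e2⟩ := (Finset.mem_filter.1 hγ).2
  have tri : ∀ b ∈ Bt, Tri ℓ' b := fun b hb => by simpa using h.ref.tri b hb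
  have p1 : (pr ℓ a : Mat p n) * pr ℓ' γ = pr ℓ' γ := by
    simp only [pr, Matrix.diagonal_mul_diagonal]
    congr 1
    funext δ
    by_cases e : ℓ' δ = ℓ' γ
    · rw [if_pos e, if_pos, one_mul]
      rw [← e1]
      exact le_antisymm (h.ref.fine _ _ e.le) (h.ref.fine _ _ e.ge)
    · rw [if_neg e, mul_zero]
  have p2 : ec ℓ' B' β * pr ℓ' γ = pr ℓ' γ := by
    simp only [ec, pr, Matrix.diagonal_mul_diagonal]
    congr 1
    funext δ
    by_cases e : ℓ' δ = ℓ' γ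
    · rw [if_pos e, if_neg, one_mul]
      rwa [Cb_congr (B := B') (rfl : ℓ' β = ℓ' β) e]
    · rw [if_neg e, mul_zero]
  have p3 : ∀ g : Mat p n, Dg ℓ' g → ec ℓ' B' β * g = g * ec ℓ' B' β := fun g hg =>
    hg.comm_diagonal fun α δ e => by rw [Cb_congr (B := B') (rfl : ℓ' β = ℓ' β) e]
  have p4 : Dg ℓ' (pr ℓ a : Mat p n) := dg_diagonal _
  have hle : B'.map (crn ℓ' 1 γ) ≤
      (Bt.map (crn ℓ η a)).map (LinearMap.mulRight (ZMod p) (pr ℓ' γ) ∘ₗ gr ℓ') := by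
    rintro _ ⟨b', hb', rfl⟩
    rw [h.ref.eq] at hb'
    obtain ⟨b, hb, rfl⟩ := hb'
    refine ⟨_, ⟨b, hb, rfl⟩, ?_⟩
    have t1 := tri η hη.mem
    have t2 := tri b hb
    change gr ℓ' (η * b * η * pr ℓ a) * pr ℓ' γ =
      1 * gr ℓ' (st 1 * b * st (st 1)) * 1 * pr ℓ' γ
    rw [gr_mul ((t1.mul t2).mul t1) (p4.tri h.ref.lab), gr_mul (t1.mul t2) t1, gr_mul t1 t2,
      hη.gre, p4.gr_eq, mul_assoc, p1, mul_assoc, p2, p3 _ (dg_gr b), mul_assoc, p2]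
    simp
  have h1 := hEBAS ℓ' B' 1 γ h.str' h.str'.alg.one (mul_one 1)
  have h2 : (im (1 : Mat p n) : VS p n) = ⊤ :=
    eq_top_iff.2 fun x _ => mem_im.2 ⟨x, Matrix.one_mulVec x⟩
  rw [h2, top_inf_eq, finrank_Vb] at h1
  rw [nb_eq h.str' e2, eb_eq h.str' e2, ← h1]
  exact Nat.mul_le_mul_right _ ((Submodule.finrank_mono hle).trans (Submodule.finrank_map_le _ _))

end Pool.Agent.P.MP_f1a348_lc.CF
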