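import Pool.Agent.P.MP_f1a348_lc.PG.Iface

/-! Project PG: a polycyclic sequence for the unipotent radical. -/

namespace Pool.Agent.P.MP_f1a348_lc.CF

open Pool.Agent.P.MP_f1a348_lc.PG

open Matrix

namespace PC0x

variable {p n : ℕ} {ℓ : Ix n → ℕ} {g h : Mat p n} {α β : Ix n} {k : ℕ}

/-- the unipotent radical -/
def U (ℓ : Ix n → ℕ) (g : Mat p n) : Prop := Par ℓ g ∧ gr ℓ g = 1

/-- admissible positions -/
def Adm (ℓ : Ix n → ℕ) (x : Ix n × Ix n) : Prop := c0 n < x.1 ∧ ℓ x.1 < ℓ x.2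

/-- the order of the positions -/
def ky (x : Ix n × Ix n) : ℕ := x.2.val * (2 * n + 1) + x.1.val

/-- the filtration -/
def H (p : ℕ) (ℓ : Ix n → ℕ) (k : ℕ) : Set (Mat p n) :=
  {g | U ℓ g ∧ ∀ x, Adm ℓ x → ky x < k → g x.1 x.2 = 0}

theorem ky_lt {γ δ : Ix n} (h : β < δ) : ky (α, β) < ky (γ, δ) := by
  have h1 : (β.val + 1) * (2 * n + 1) ≤ δ.val * (2 * n + 1) := Nat.mul_le_mul_right _ h
  have := α.2
  simp only [ky]
  nlinarith

theorem U.diag (hg : U ℓ g) (α : Ix n) : g α α = 1 := by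
  simpa using congrFun (congrFun hg.2 α) α

theorem U.lt (hg : U ℓ g) (h0 : g α β ≠ 0) (e : α ≠ β) : ℓ α < ℓ β :=
  (hg.1.1 _ _ h0).1.lt_of_ne fun e' => h0 (by simpa [e, e'] using congrFun (congrFun hg.2 α) β)

theorem U.mul (hg : U ℓ g) (hh : U ℓ h) : U ℓ (g * h) :=
  ⟨hg.1.mul hh.1, by rw [gr_mul hg.1.1 hh.1.1, hg.2, hh.2, one_mul]⟩

theorem U.star (hl : Lab ℓ) (hg : U ℓ g) : U ℓ (st g) :=
  ⟨hg.1.star hl, by rw [gr_st hl, hg.2, st_one]⟩

theorem add (hl : Lab ℓ) (hg : g ∈ H p ℓ k) (hh : U ℓ h) {x : Ix n × Ix n} (hx : Adm ℓ x)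
    (hk : ky x ≤ k) : (g * h) x.1 x.2 = g x.1 x.2 + h x.1 x.2 := by
  have e : x.1 ≠ x.2 := fun e => hx.2.ne (congrArg ℓ e)
  rw [Matrix.mul_apply, Finset.sum_eq_add x.2 x.1 e.symm, hg.1.diag, hh.diag, one_mul, mul_one]
  · intro γ _ hγ
    by_contra h0
    have h1 := left_ne_zero_of_mul h0
    exact h1 (hg.2 (x.1, γ) ⟨hx.1, hg.1.lt h1 hγ.2.symm⟩
      ((ky_lt (hl.mono.reflect_lt (hh.lt (right_ne_zero_of_mul h0) hγ.1))).trans_le hk))
  all_goals simp

theorem one_adm {x : Ix n × Ix n} (hx : Adm ℓ x) : (1 : Mat p n) x.1 x.2 = 0 :=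
  Matrix.one_apply_ne fun e => hx.2.ne (congrArg ℓ e)

theorem star_eq (hl : Lab ℓ) (hg : g ∈ H p ℓ k) {x : Ix n × Ix n} (hx : Adm ℓ x) (hk : ky x ≤ k) :
    st g x.1 x.2 = -g x.1 x.2 := by
  have := add hl hg (hg.1.star hl) hx hk
  rw [hg.1.1.2.1.mul_st, one_adm hx] at this
  exact eq_neg_of_add_eq_zero_right this.symm

theorem grp (hl : Lab ℓ) (k : ℕ) : Grp (H p ℓ k) where
  one := ⟨⟨Par.one, gr_one⟩, fun _ hx _ => one_adm hx⟩
  mul _ ha _ hb := ⟨ha.1.mul hb.1, fun x hx hk => by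
    rw [add hl ha hb.1 hx hk.le, ha.2 x hx hk, hb.2 x hx hk, add_zero]⟩
  un _ ha := ha.1.1.2.1
  star _ ha := ⟨ha.1.star hl, fun x hx hk => by rw [star_eq hl ha hx hk.le, ha.2 x hx hk, neg_zero]⟩

theorem pow (hl : Lab ℓ) (hg : g ∈ H p ℓ k) (m : ℕ) : g ^ m ∈ H p ℓ k ∧
    ∀ x, Adm ℓ x → ky x ≤ k → (g ^ m) x.1 x.2 = m * g x.1 x.2 := by
  induction m with
  | zero => exact ⟨by simpa using (grp hl k).one, fun x hx _ => by simpa using one_adm hx⟩
  | succ m ih =>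
    rw [pow_succ]
    exact ⟨(grp hl k).mul _ ih.1 _ hg, fun x hx hk => by
      rw [add hl ih.1 hg.1 hx hk, ih.2 x hx hk, Nat.cast_succ, add_one_mul]⟩

theorem elm_U (hl : Lab ℓ) (hx : Adm ℓ (α, β)) : U ℓ (elm α β : Mat p n) := by
  have h1 : c0 n < α := hx.1
  have h2 : ℓ α < ℓ β := hx.2
  have h3 : α < β := hl.mono.reflect_lt h2
  have h4 := rev_lt_c0.2 h1
  have h5 := rev_lt_c0.2 (h1.trans h3)
  have e : st (Matrix.single α β 1 : Mat p n) = Matrix.single β.rev α.rev 1 := by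
    ext γ δ
    simp only [st_apply, Matrix.single_apply, Fin.rev_eq_iff, and_comm]
  have t : Tri ℓ (Matrix.single α β 1 : Mat p n) := fun γ δ h0 => by
    obtain ⟨rfl, rfl⟩ : α = γ ∧ β = δ := by
      by_contra h6
      exact h0 (if_neg h6)
    exact ⟨h2.le, iff_of_false h1.not_gt (h1.trans h3).not_gt, iff_of_true h1 (h1.trans h3)⟩
  have z : gr ℓ (Matrix.single α β 1 : Mat p n) = 0 := by
    ext γ δ
    simp only [gr_apply, Matrix.single_apply, Matrix.zero_apply]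
    split_ifs with h6 h7
    · exact absurd (h7.1 ▸ h7.2 ▸ h6) h2.ne
    all_goals rfl
  refine ⟨⟨(Tri.one.add t).sub (e ▸ t.st hl), ?_, ?_⟩, ?_⟩
  · rw [Un, elm, st_sub, st_add, st_one, e, ← e, st_st, e]
    simp only [mul_add, mul_sub, add_mul, sub_mul, one_mul, mul_one]
    rw [Matrix.single_mul_single_of_ne _ _ _ _ (h4.trans h1).ne,
      Matrix.single_mul_single_of_ne _ _ _ _ h3.ne',
      Matrix.single_mul_single_of_ne _ _ _ _ (Fin.rev_lt_rev.2 h3).ne',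
      Matrix.single_mul_single_of_ne _ _ _ _ (h5.trans (h1.trans h3)).ne']
    abel
  · simp [elm, h1.ne', h5.ne]
  · rw [elm, map_sub, map_add, gr_one, z, ← e, gr_st hl, z, st_zero, add_zero, sub_zero]

theorem main [Fact p.Prime] (hl : Lab ℓ) (P : List (Ix n × Ix n))
    (h1 : P.Pairwise fun x y => ky x < ky y) :
    ∀ k, (∀ x, x ∈ P ↔ Adm ℓ x ∧ k ≤ ky x) → PC (P.map fun x => elm x.1 x.2) (H p ℓ k) := by
  induction P with
  | nil =>
    intro k h2
    refine Set.eq_singleton_iff_unique_mem.2 ⟨(grp hl k).one, fun g hg => ?_⟩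
    have h3 : ∀ x, Adm ℓ x → ky x < k := fun x hx => not_le.1 fun e => by simpa using (h2 x).2 ⟨hx, e⟩
    ext α β
    by_cases e : α = β
    · rw [e, hg.1.diag, Matrix.one_apply_eq]
    rw [Matrix.one_apply_ne e]
    by_contra h0
    have h4 := hg.1.lt h0 e
    rcases lt_trichotomy α (c0 n) with h5 | rfl | h5
    · have h6 : Adm ℓ (β.rev, α.rev) := ⟨c0_lt_rev.2 ((hg.1.1.1 _ _ h0).2.1.1 h5),
        not_le.1 fun e => h4.not_ge (hl.rev_le.1 e)⟩
      exact h0 (by simpa using ((grp hl k).star g hg).2 _ h6 (h3 _ h6))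
    · exact h0 (hg.1.1.1.row_c0 (Ne.symm e))
    · exact h0 (hg.2 (α, β) ⟨h5, h4⟩ (h3 _ ⟨h5, h4⟩))
  | cons x P ih =>
    intro k h2
    rw [List.pairwise_cons] at h1
    obtain ⟨hx, hk⟩ := (h2 x).1 List.mem_cons_self
    have h3 : ∀ y, Adm ℓ y → ky y ≤ ky x → ky y < k ∨ y = x := fun y hy e =>
      (lt_or_ge _ _).imp_right fun e' => (List.mem_cons.1 ((h2 y).2 ⟨hy, e'⟩)).resolve_right
        fun h => (h1.1 y h).not_ge e
    have h4 : H p ℓ k = H p ℓ (ky x) := Set.ext fun g => and_congr_right fun _ =>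
      ⟨fun h y hy e => h y hy ((h3 y hy e.le).resolve_right fun e' => e.ne (congrArg ky e')),
        fun h y hy e => h y hy (e.trans_le hk)⟩
    have h5 : ∀ y : Ix n × Ix n, Adm ℓ y → (elm x.1 x.2 : Mat p n) y.1 y.2 =
        if x = y then 1 else 0 := fun y hy => by
      have : x.2.rev ≠ y.1 :=
        ((rev_lt_c0.2 (hx.1.trans (hl.mono.reflect_lt hx.2))).trans hy.1).ne
      simp [elm, one_adm hy, Matrix.single_apply, this, Prod.ext_iff]
    have h6 : (elm x.1 x.2 : Mat p n) ∈ H p ℓ (ky x) := ⟨elm_U hl hx, fun y hy e => by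
      rw [h5 y hy, if_neg fun e' => e.ne' (congrArg ky e')]⟩
    have h7 : H p ℓ (ky x + 1) ⊆ H p ℓ (ky x) := fun g hg =>
      ⟨hg.1, fun y hy e => hg.2 y hy (e.trans (Nat.lt_succ_self _))⟩
    have G := grp (p := p) hl (ky x)
    rw [h4]
    refine ⟨h6, _, grp hl (ky x + 1), h7, ih h1.2 _ fun y => ⟨fun h =>
      ⟨((h2 y).1 (List.mem_cons_of_mem _ h)).1, h1.1 y h⟩, fun h => ?_⟩, fun u hu => ?_,
      ⟨(pow hl h6 p).1.1, fun y hy e => ?_⟩, fun u hu => ?_⟩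
    · exact (List.mem_cons.1 ((h2 y).2 ⟨h.1, hk.trans (Nat.le_of_succ_le h.2)⟩)).resolve_left
        fun e => Nat.not_succ_le_self _ (e ▸ h.2)
    · refine ⟨((h6.1.star hl).mul hu.1).mul h6.1, fun y hy e => ?_⟩
      have e' := Nat.le_of_lt_succ e
      rw [add hl (G.mul _ (G.star _ h6) _ (h7 hu)) h6.1 hy e', add hl (G.star _ h6) hu.1 hy e',
        star_eq hl h6 hy e', hu.2 y hy e, add_zero, neg_add_cancel]
    · rw [(pow hl h6 p).2 y hy (Nat.le_of_lt_succ e), ZMod.natCast_self, zero_mul]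
    · obtain ⟨h8, h9⟩ := pow hl h6 (u x.1 x.2).val
      refine ⟨_, _, ⟨(h8.1.star hl).mul hu.1, fun y hy e => ?_⟩,
        by rw [← mul_assoc, (G.un _ h8).mul_st, one_mul]⟩
      have e' := Nat.le_of_lt_succ e
      rw [add hl (G.star _ h8) hu.1 hy e', star_eq hl h8 hy e', h9 y hy e', h5 y hy]
      rcases h3 y hy e' with h | rfl
      · rw [if_neg fun e' : x = y => h.not_ge (e' ▸ hk), hu.2 y hy (h.trans_le hk), mul_zero,
          neg_add_cancel]
      · rw [if_pos rfl, ZMod.natCast_zmod_val, mul_one, neg_add_cancel]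

end PC0x

open PC0x in
theorem s_PC0 (p n : ℕ) [Fact p.Prime] : S_PC0 p n := by
  intro ℓ hl
  have := main (p := p) hl ((List.finRange _).flatMap fun β => (List.finRange _).filterMap fun α =>
    if c0 n < α ∧ ℓ α < ℓ β then some (α, β) else none) ?_ 0 (by simp [Adm, Prod.ext_iff])
  · simp only [List.map_flatMap, List.map_filterMap, apply_ite (Option.map _), Option.map_some,
      Option.map_none] at this
    exact (Set.ext fun g => by simp [H, U] : H p ℓ 0 = {g | Par ℓ g ∧ gr ℓ g = 1}) ▸ this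
  · rw [List.pairwise_flatMap]
    refine ⟨fun β _ => List.pairwise_filterMap.2 ((List.pairwise_lt_finRange _).imp ?_),
      (List.pairwise_lt_finRange _).imp ?_⟩
    · intro α γ e x hx y hy
      simp only [Option.ite_none_right_eq_some, Option.some.injEq] at hx hy
      rw [← hx.2, ← hy.2]
      exact Nat.add_lt_add_left e _
    · intro β δ e x hx y hy
      simp only [List.mem_filterMap, Option.ite_none_right_eq_some, Option.some.injEq] at hx hy
      obtain ⟨α, -, -, rfl⟩ := hx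
      obtain ⟨γ, -, -, rfl⟩ := hy
      exact ky_lt e

end Pool.Agent.P.MP_f1a348_lc.CF
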