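import Pool.Agent.P.MP_f1a348_lc.PG.Iface

/-! Project PG: a polycyclic sequence for the kernel of a character. -/

namespace Pool.Agent.P.MP_f1a348_lc.CF

open Pool.Agent.P.MP_f1a348_lc.PG

namespace PCKx

variable {p n : ℕ} [Fact p.Prime] {H : Set (Mat p n)} {ψ : Mat p n → ZMod p}

theorem pow_mem (hH : Grp H) {a : Mat p n} (ha : a ∈ H) (j : ℕ) : a ^ j ∈ H := by
  induction j with
  | zero => rw [pow_zero]; exact hH.one
  | succ j ih => rw [pow_succ]; exact hH.mul _ ih _ ha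

theorem psi_one (hH : Grp H) (hψ : ∀ a ∈ H, ∀ b ∈ H, ψ (a * b) = ψ a + ψ b) : ψ 1 = 0 := by
  have h1 := hψ 1 hH.one 1 hH.one
  rwa [mul_one, left_eq_add] at h1

theorem psi_pow (hH : Grp H) (hψ : ∀ a ∈ H, ∀ b ∈ H, ψ (a * b) = ψ a + ψ b) {a : Mat p n}
    (ha : a ∈ H) (j : ℕ) : ψ (a ^ j) = (j : ZMod p) * ψ a := by
  induction j with
  | zero => rw [pow_zero, psi_one hH hψ]; simp
  | succ j ih => rw [pow_succ, hψ _ (pow_mem hH ha j) _ ha, ih]; push_cast; ring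

theorem psi_st (hH : Grp H) (hψ : ∀ a ∈ H, ∀ b ∈ H, ψ (a * b) = ψ a + ψ b) {a : Mat p n}
    (ha : a ∈ H) : ψ (st a) = -ψ a := by
  have h1 := hψ _ (hH.star a ha) _ ha
  rw [(hH.un a ha).st_mul, psi_one hH hψ] at h1
  exact eq_neg_of_add_eq_zero_left h1.symm

theorem grp_ker (hH : Grp H) (hψ : ∀ a ∈ H, ∀ b ∈ H, ψ (a * b) = ψ a + ψ b) :
    Grp {u | u ∈ H ∧ ψ u = 0} where
  one := ⟨hH.one, psi_one hH hψ⟩
  mul a ha b hb := ⟨hH.mul a ha.1 b hb.1, by rw [hψ a ha.1 b hb.1, ha.2, hb.2, add_zero]⟩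
  un a ha := hH.un a ha.1
  star a ha := ⟨hH.star a ha.1, by rw [psi_st hH hψ ha.1, ha.2, neg_zero]⟩

theorem pow_split {H' : Set (Mat p n)} (hH' : Grp H') {h y : Mat p n} (hh : Un h) (hy : y ∈ H')
    (hn : ∀ x ∈ H', st h * x * h ∈ H') (j : ℕ) : ∃ z ∈ H', (h * y) ^ j = h ^ j * z := by
  induction j with
  | zero => exact ⟨1, hH'.one, by simp⟩
  | succ j ih =>
    obtain ⟨z, hz, e⟩ := ih
    refine ⟨st h * z * h * y, hH'.mul _ (hn z hz) _ hy, ?_⟩
    rw [pow_succ, e, pow_succ]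
    calc h ^ j * z * (h * y) = h ^ j * (h * st h) * z * (h * y) := by rw [hh.mul_st, mul_one]
      _ = h ^ j * h * (st h * z * h * y) := by simp only [mul_assoc]

end PCKx

open PCKx in
theorem s_PCK (p n : ℕ) [Fact p.Prime] (hPCS : S_PCS p n) : S_PCK p n := by
  intro pre post g H ψ k
  induction pre generalizing H with
  | nil =>
    intro hH h hψ hg hpost _
    obtain ⟨hgH, H', h1, h2, h3, -, h4, h5⟩ := h
    have h0 : ∀ u ∈ H', ψ u = 0 := fun u hu => by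
      have e := (hPCS post H' h1 h3).2 (fun a _ => ψ a)
        (fun a ha b hb => funext fun _ => hψ a (h2 ha) b (h2 hb)) u hu
      have e2 : (spL (post.map fun a => (fun _ => ψ a : Frm p n)) :
          Submodule (ZMod p) (Frm p n)) ≤ ⊥ := by
        refine spL_le.2 fun x hx => ?_
        obtain ⟨a, ha, rfl⟩ := List.mem_map.1 hx
        exact (Submodule.mem_bot _).2 (funext fun _ => hpost a ha)
      exact congrFun ((Submodule.mem_bot _).1 (e2 e)) fun _ => c0 n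
    have e : {u | u ∈ H ∧ ψ u = 0} = H' := by
      refine Set.Subset.antisymm (fun u hu => ?_) fun u hu => ⟨h2 hu, h0 u hu⟩
      obtain ⟨j, u', hu', e⟩ := h5 u hu.1
      have e1 := hu.2
      rw [e, hψ _ (pow_mem hH hgH j) _ (h2 hu'), h0 u' hu', add_zero, psi_pow hH hψ hgH] at e1
      obtain ⟨m, rfl⟩ := (ZMod.natCast_eq_zero_iff j p).1 ((mul_eq_zero.1 e1).resolve_right hg)
      rw [e, pow_mul]
      exact h1.mul _ (pow_mem h1 h4 m) _ hu'
    rw [e]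
    exact h3
  | cons h pre ih =>
    intro hH hPC hψ hg hpost hpre
    obtain ⟨hh, H', h1, h2, h3, hn, h4, h5⟩ := hPC
    have hψ' : ∀ a ∈ H', ∀ b ∈ H', ψ (a * b) = ψ a + ψ b := fun a ha b hb =>
      hψ a (h2 ha) b (h2 hb)
    have hg' : g ∈ H' := (hPCS _ H' h1 h3).1 g (by simp)
    have hy : g ^ k h ∈ H' := pow_mem h1 hg' _
    have hm : h * g ^ k h ∈ H := hH.mul _ hh _ (h2 hy)
    have hz : ψ (h * g ^ k h) = 0 := by
      rw [hψ _ hh _ (h2 hy), psi_pow hH hψ (h2 hg')]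
      exact hpre h (by simp)
    have hs := pow_split h1 (hH.un h hh) hy hn
    refine ⟨⟨hm, hz⟩, {u | u ∈ H' ∧ ψ u = 0}, grp_ker h1 hψ', fun u hu => ⟨h2 hu.1, hu.2⟩,
      ih H' h1 h3 hψ' hg hpost fun a ha => hpre a (List.mem_cons_of_mem _ ha),
      fun x hx => ⟨?_, ?_⟩, ⟨?_, ?_⟩, fun u hu => ?_⟩
    · have e : st (h * g ^ k h) * x * (h * g ^ k h) =
          st (g ^ k h) * (st h * x * h) * g ^ k h := by rw [st_mul]; simp only [mul_assoc]
      rw [e]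
      exact h1.mul _ (h1.mul _ (h1.star _ hy) _ (hn x hx.1)) _ hy
    · rw [hψ _ (hH.mul _ (hH.star _ hm) _ (h2 hx.1)) _ hm, hψ _ (hH.star _ hm) _ (h2 hx.1),
        psi_st hH hψ hm, hz, hx.2]
      simp
    · obtain ⟨z, hz', e⟩ := hs p
      rw [e]
      exact h1.mul _ h4 _ hz'
    · rw [psi_pow hH hψ hm, hz, mul_zero]
    · obtain ⟨j, u', hu', e⟩ := h5 u hu.1
      obtain ⟨z, hz', e'⟩ := hs j
      have hw : st z * u' ∈ H' := h1.mul _ (h1.star _ hz') _ hu'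
      have e2 : u = (h * g ^ k h) ^ j * (st z * u') := by
        rw [e', e, mul_assoc, ← mul_assoc z, (h1.un z hz').mul_st, one_mul]
      refine ⟨j, st z * u', ⟨hw, ?_⟩, e2⟩
      have e3 := hu.2
      rwa [e2, hψ _ (pow_mem hH hm j) _ (h2 hw), psi_pow hH hψ hm, hz, mul_zero, zero_add] at e3

end Pool.Agent.P.MP_f1a348_lc.CF
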