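import Pool.Agent.P.MP_f1a348_lc.PG.Iface

/-!
Project PG: pinning a vector makes progress.
-/

namespace Pool.Agent.P.MP_f1a348_lc.CF

open Pool.Agent.P.MP_f1a348_lc.PG

open Matrix Module

namespace PINx

variable {p n : ℕ} [Fact p.Prime] {ℓ : Ix n → ℕ} {B : Sub p n}

omit [Fact p.Prime] in
theorem e0_mem : (e0 : Vec p n) ∈ Vb ℓ (c0 n) := fun _ hβ =>
  Pi.single_eq_of_ne (fun e => hβ (by rw [e])) _

theorem pin_key (h : Str ℓ B) {a : Ix n} (t : ¬ Triv ℓ B a) {u : Vec p n} (hu : u ∈ Vb ℓ a)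
    (h0 : u ≠ 0) {η : Mat p n} (hη : η ∈ Ht B (D0 u) (D0 u)) (h1 : η *ᵥ e0 = 0)
    (h2 : η *ᵥ u = u) : False := by
  have h3 := hη.2.1 _ (Submodule.mem_span_singleton_self (t1 (u + e0)))
  rw [act_t1, Matrix.mulVec_add, h1, h2, add_zero] at h3
  obtain ⟨c, hc⟩ := Submodule.mem_span_singleton.1 h3
  rw [← map_smul] at hc
  have h4 := t1_inj hc
  have h5 := congrFun h4 (c0 n)
  have h6 : c = 0 := by simpa [ntriv_c0 h t hu, e0] using h5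
  rw [h6, zero_smul] at h4
  exact h0 h4.symm

end PINx

open PINx in
theorem s_PIN (p n : ℕ) [Fact p.Prime] (hGAIN : S_GAIN p n) (hACC0 : S_ACC0 p n) :
    S_PIN p n := by
  intro ℓ B a u h t hu h0
  have h1 : Acc ℓ B (D0 u) 0 := hACC0 ℓ B _ h fun e =>
    pin_key h t hu h0 (e (eo_mem h)) (eo_mulVec_triv e0_mem (triv_c0 h.alg)) (eo_mulVec_ntriv hu t)
  refine ⟨h1, fun hd ℓ' g B' hr hs => ⟨(h1 ℓ' g B' hr hs).1, ?_⟩⟩
  obtain ⟨η, df, hc, hdf⟩ :=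
    (hGAIN ℓ ℓ' B _ B' g h (Ht_alg h.alg _) (Ht_le _ _ _) hr hs).2 a t
  have h2 := hc.on a (cb_refl h.alg a)
  have hη : η ∈ B := Ht_le _ _ _ hc.mem
  have h3 : df ≠ 0 := fun e => by
    rw [e, Submodule.finrank_eq_zero] at h2
    have h4 : (1 - η) *ᵥ u ∈ (im (1 - η) ⊓ Vb ℓ a : VS p n) :=
      ⟨⟨u, rfl⟩, (h.alg.dg _ (sub_mem h.alg.one hη)).mulVec_mem hu⟩
    rw [h2, Submodule.mem_bot, Matrix.sub_mulVec, Matrix.one_mulVec, sub_eq_zero] at h4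
    refine pin_key h t hu h0 hc.mem ?_ h4.symm
    rw [← mem_Vb_iff.1 (e0_mem (ℓ := ℓ)), Matrix.mulVec_mulVec,
      hc.off _ (cb_eq_bot' h t (triv_c0 h.alg)), Matrix.zero_mulVec]
  have h4 := eb_dvd h (stab_im (sub_mem h.alg.one hη)) a
  rw [h2] at h4
  have h5 := (Nat.le_of_dvd (Nat.pos_of_ne_zero h3) h4).trans hdf
  rw [← db_mul_eb h a]
  calc _ ≤ 8 * tt n * (2 * (Phi ℓ B - Phi ℓ' B')) := Nat.mul_le_mul hd h5
    _ = _ := by ring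

end Pool.Agent.P.MP_f1a348_lc.CF
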