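import Pool.Agent.P.MP_f1a348_lc.PG.Iface

/-!
Project PG, task PL: projectively additive maps are linear modulo the endomorphism field.
-/

namespace Pool.Agent.P.MP_f1a348_lc.CF

open Pool.Agent.P.MP_f1a348_lc.PG

open Matrix Module

namespace PLx

set_option linter.unusedSectionVars false

variable {p n : ℕ} [Fact p.Prime] {ℓ : Ix n → ℕ} {B : Sub p n} {a c : Ix n}

/-- independent pairs -/
def I2 (ℓ : Ix n → ℕ) (B : Sub p n) (a : Ix n) (x y : Vec p n) : Prop :=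
  x ∈ Vb ℓ a ∧ y ∈ Vb ℓ a ∧ x ≠ 0 ∧ y ∉ orb (Com B) x

/-- independent triples -/
def I3 (ℓ : Ix n → ℕ) (B : Sub p n) (a : Ix n) (x y z : Vec p n) : Prop :=
  I2 ℓ B a x y ∧ z ∈ Vb ℓ a ∧ z ∉ orb (Com B) x ⊔ orb (Com B) y

/-- the defect of additivity -/
def Rel (ℓ : Ix n → ℕ) (B : Sub p n) (a c : Ix n) (t : Vec p n → Vec p n) (x y : Vec p n)
    (α β : Mat p n) : Prop :=
  α ∈ Cb ℓ B c a ∧ β ∈ Cb ℓ B c a ∧ t (x + y) - t x - t y = α *ᵥ x + β *ᵥ y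

theorem I2.symm (h : Str ℓ B) {x y : Vec p n} (H : I2 ℓ B a x y) : I2 ℓ B a y x := by
  refine ⟨H.2.1, H.1, fun e => H.2.2.2 (e ▸ zero_mem _), fun e => H.2.2.2 ?_⟩
  have := exchange h (W := ⊥) stab_bot H.2.1 (Submodule.mem_sup_right e)
    (fun e' => H.2.2.1 ((Submodule.mem_bot _).1 e'))
  rwa [bot_sup_eq] at this

theorem I3.s12 (h : Str ℓ B) {x y z : Vec p n} (H : I3 ℓ B a x y z) : I3 ℓ B a y x z :=
  ⟨H.1.symm h, H.2.1, by rw [sup_comm]; exact H.2.2⟩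

theorem I3.s23 (h : Str ℓ B) {x y z : Vec p n} (H : I3 ℓ B a x y z) : I3 ℓ B a x z y :=
  ⟨⟨H.1.1, H.2.1, H.1.2.2.1, fun e => H.2.2 (Submodule.mem_sup_left e)⟩, H.1.2.1,
    fun e => H.2.2 (exchange h (stab_orb x) H.2.1 e H.1.2.2.2)⟩

theorem I2.add_ne {x y : Vec p n} (H : I2 ℓ B a x y) : x + y ≠ 0 := fun e => H.2.2.2 (by
  rw [eq_neg_of_add_eq_zero_right e]; exact neg_mem (self_mem_orb x))

theorem I3.add {x y z : Vec p n} (H : I3 ℓ B a x y z) : I2 ℓ B a (x + y) z :=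
  ⟨add_mem H.1.1 H.1.2.1, H.2.1, H.1.add_ne, fun e => H.2.2
    (((stab_orb x).sup (stab_orb y)).orb_le (Submodule.add_mem_sup (self_mem_orb x)
      (self_mem_orb y)) e)⟩

theorem U1 (h : Str ℓ B) {W : VS p n} (hW : Stab B W) {z : Vec p n} (hz : z ∈ Vb ℓ a)
    (hn : z ∉ W) {γ : Mat p n} (hγ : γ ∈ Cb ℓ B c a) (e : γ *ᵥ z ∈ W) : γ = 0 := by
  refine cb_inj h hγ hz (fun e' => hn (e' ▸ zero_mem _)) ?_
  by_contra h0
  exact hn (mem_of_mulVec_mem h hW hz hγ.1 h0 e)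

theorem U2 (h : Str ℓ B) {x y : Vec p n} (H : I2 ℓ B a x y) {α β : Mat p n}
    (hα : α ∈ Cb ℓ B c a) (hβ : β ∈ Cb ℓ B c a) (e : α *ᵥ x + β *ᵥ y = 0) : α = 0 ∧ β = 0 := by
  have h1 : β = 0 := U1 h (stab_orb x) H.2.1 H.2.2.2 hβ (by
    rw [eq_neg_of_add_eq_zero_right e]; exact neg_mem (mem_orb.2 ⟨α, hα.1, rfl⟩))
  rw [h1, Matrix.zero_mulVec, add_zero] at e
  exact ⟨cb_inj h hα H.1 H.2.2.1 e, h1⟩

theorem U3 (h : Str ℓ B) {x y z : Vec p n} (H : I3 ℓ B a x y z) {α β γ : Mat p n}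
    (hα : α ∈ Cb ℓ B c a) (hβ : β ∈ Cb ℓ B c a) (hγ : γ ∈ Cb ℓ B c a)
    (e : α *ᵥ x + β *ᵥ y + γ *ᵥ z = 0) : α = 0 ∧ β = 0 ∧ γ = 0 := by
  have h1 : γ = 0 := U1 h ((stab_orb x).sup (stab_orb y)) H.2.1 H.2.2 hγ (by
    rw [eq_neg_of_add_eq_zero_right e]
    exact neg_mem (Submodule.add_mem_sup (mem_orb.2 ⟨α, hα.1, rfl⟩) (mem_orb.2 ⟨β, hβ.1, rfl⟩)))
  rw [h1, Matrix.zero_mulVec, add_zero] at e
  exact ⟨(U2 h H.1 hα hβ e).1, (U2 h H.1 hα hβ e).2, h1⟩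

theorem Rel.symm {t : Vec p n → Vec p n} {x y : Vec p n} {α β : Mat p n}
    (H : Rel ℓ B a c t x y α β) : Rel ℓ B a c t y x β α :=
  ⟨H.2.1, H.1, by rw [add_comm y, add_comm (β *ᵥ y), ← H.2.2]; abel⟩

theorem Rel.uniq (h : Str ℓ B) {t : Vec p n → Vec p n} {x y : Vec p n} (I : I2 ℓ B a x y)
    {α β α' β' : Mat p n} (H : Rel ℓ B a c t x y α β) (H' : Rel ℓ B a c t x y α' β') :
    α = α' ∧ β = β' := by
  have := U2 h I (sub_mem H.1 H'.1) (sub_mem H.2.1 H'.2.1) (by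
    have e := H.2.2.symm.trans H'.2.2
    rw [Matrix.sub_mulVec, Matrix.sub_mulVec]
    linear_combination (exp := 1) e)
  exact ⟨sub_eq_zero.1 this.1, sub_eq_zero.1 this.2⟩

/-- two ways of grouping a triple -/
theorem tri (h : Str ℓ B) {t : Vec p n → Vec p n} {x y z : Vec p n} (I : I3 ℓ B a x y z)
    {α α' β β' δ δ' ε ε' : Mat p n} (h1 : Rel ℓ B a c t x y α α') (h2 : Rel ℓ B a c t x z β β')
    (h3 : Rel ℓ B a c t (x + y) z δ δ') (h4 : Rel ℓ B a c t (x + z) y ε ε') :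
    α + δ = β + ε ∧ α' + δ = ε' ∧ δ' = β' + ε := by
  have := U3 h I (sub_mem (add_mem h1.1 h3.1) (add_mem h2.1 h4.1))
    (sub_mem (add_mem h1.2.1 h3.1) h4.2.1) (sub_mem h3.2.1 (add_mem h2.2.1 h4.1)) (by
    have e1 := h1.2.2
    have e2 := h2.2.2
    have e3 := h3.2.2
    have e4 := h4.2.2
    rw [add_right_comm x z y] at e4
    simp only [Matrix.sub_mulVec, Matrix.add_mulVec, Matrix.mulVec_add] at e3 e4 ⊢
    linear_combination (exp := 1) e2 + e4 - e1 - e3)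
  exact ⟨sub_eq_zero.1 this.1, sub_eq_zero.1 this.2.1, sub_eq_zero.1 this.2.2⟩

theorem coc (h : Str ℓ B) {t : Vec p n → Vec p n} {A A' : Vec p n → Vec p n → Mat p n}
    (H : ∀ x y, I2 ℓ B a x y → Rel ℓ B a c t x y (A x y) (A' x y)) {x y z : Vec p n}
    (I : I3 ℓ B a x y z) :
    A x z - A' x z = (A x y - A' x y) + (A y z - A' y z) := by
  obtain ⟨e1, _, e3⟩ := tri h I (H _ _ I.1) (H _ _ (I.s23 h).1) (H _ _ I.add)
    (H _ _ (I.s23 h).add)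
  have h3 := H _ _ I.add
  rw [add_comm x y] at h3
  obtain ⟨f1, _, f3⟩ := tri h (I.s12 h) (H _ _ I.1).symm (H _ _ ((I.s12 h).s23 h).1) h3
    (H _ _ ((I.s12 h).s23 h).add)
  rw [add_comm y x] at f1 f3
  linear_combination (norm := abel) e3 - f3 + f1 - e1

theorem out4 (h : Str ℓ B) (hd : 4 < db ℓ B a) {x y z w : Vec p n} (hx : x ∈ Vb ℓ a)
    (hy : y ∈ Vb ℓ a) (hz : z ∈ Vb ℓ a) (hw : w ∈ Vb ℓ a) : ∃ v ∈ Vb ℓ a,
    v ∉ orb (Com B) x ⊔ orb (Com B) y ⊔ orb (Com B) z ⊔ orb (Com B) w := by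
  obtain ⟨v, hv, _, e⟩ := out h small_bot
    ((((small_orb h hx).sup h.alg (small_orb h hy)).sup h.alg (small_orb h hz)).sup h.alg
      (small_orb h hw)) (b := a) (by omega)
  exact ⟨v, hv, e⟩

theorem mono3 {U V W : VS p n} (e : U ≤ V) {v : Vec p n} (hv : v ∈ U ⊔ W) : v ∈ V ⊔ W :=
  (sup_le_sup_right e W : U ⊔ W ≤ V ⊔ W) hv

theorem lam_ex (h : Str ℓ B) (hd : 4 < db ℓ B a) {D : Vec p n → Vec p n → Mat p n}
    (hK : ∀ x y, I2 ℓ B a x y → D x y ∈ Cb ℓ B c a)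
    (hs : ∀ x y, I2 ℓ B a x y → D y x = -D x y)
    (hc : ∀ x y z, I3 ℓ B a x y z → D x z = D x y + D y z) :
    ∃ lam : Vec p n → Mat p n, (∀ x ∈ Vb ℓ a, x ≠ 0 → lam x ∈ Cb ℓ B c a) ∧
      ∀ x y, I2 ℓ B a x y → lam x - lam y = D x y := by
  obtain ⟨x0, h0, _, h0'⟩ := out h small_bot small_bot (b := a) (by omega)
  have h1 : x0 ≠ 0 := fun e => h0' (e ▸ zero_mem _)
  have key : ∀ x, ∃ l : Mat p n, x ∈ Vb ℓ a → x ≠ 0 → l ∈ Cb ℓ B c a ∧ ∀ y ∈ Vb ℓ a,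
      y ∉ orb (Com B) x → y ∉ orb (Com B) x0 → D x y + D y x0 = l := fun x => by
    by_cases hx : x ∈ Vb ℓ a
    swap
    · exact ⟨0, fun e => (hx e).elim⟩
    obtain ⟨y, hy, e⟩ := out4 h hd hx h0 h0 h0
    have a1 : y ∉ orb (Com B) x := fun e' =>
      e (Submodule.mem_sup_left (Submodule.mem_sup_left (Submodule.mem_sup_left e')))
    have a2 : y ∉ orb (Com B) x0 := fun e' => e (Submodule.mem_sup_right e')
    refine ⟨D x y + D y x0, fun _ hx0 => ⟨add_mem (hK _ _ ⟨hx, hy, hx0, a1⟩)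
      (hK _ _ (I2.symm h ⟨h0, hy, h1, a2⟩)), fun y' hy' b1 b2 => ?_⟩⟩
    obtain ⟨v, hv, e'⟩ := out4 h hd hx h0 hy hy'
    have main : ∀ u ∈ Vb ℓ a, u ∉ orb (Com B) x → u ∉ orb (Com B) x0 →
        v ∉ orb (Com B) x ⊔ orb (Com B) x0 ⊔ orb (Com B) u →
        D x u + D u x0 = D x v + D v x0 := fun u hu c1 c2 c3 => by
      have i1 : I3 ℓ B a x u v := ⟨⟨hx, hu, hx0, c1⟩, hv, fun f => c3
        (mono3 le_sup_left f)⟩
      have i2 : I3 ℓ B a x0 u v := ⟨⟨h0, hu, h1, c2⟩, hv, fun f => c3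
        (mono3 le_sup_right f)⟩
      have i3 : I3 ℓ B a v u x0 := ((i2.s12 h).s23 h).s12 h
      rw [hc _ _ _ i1, hc _ _ _ i3, hs _ _ ((i1.s12 h).s23 h).1]
      abel
    rw [main y hy a1 a2 fun f => e' (Submodule.mem_sup_left f), main y' hy' b1 b2 fun f =>
      e' (mono3 le_sup_left f)]
  choose lam hlam using key
  refine ⟨lam, fun x hx hx0 => (hlam x hx hx0).1, fun x y I => ?_⟩
  obtain ⟨v, hv, e⟩ := out4 h hd I.1 I.2.1 h0 h0
  have i1 : I3 ℓ B a x y v := ⟨I, hv, fun f => e (Submodule.mem_sup_left (Submodule.mem_sup_left f))⟩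
  have a2 : v ∉ orb (Com B) x0 := fun e' => e (Submodule.mem_sup_right e')
  rw [← (hlam x I.1 I.2.2.1).2 v hv (i1.s23 h).1.2.2.2 a2,
    ← (hlam y I.2.1 (I.symm h).2.2.1).2 v hv ((i1.s12 h).s23 h).1.2.2.2 a2, hc _ _ _ i1]
  abel

end PLx

open PLx in
theorem s_PL (p n : ℕ) [Fact p.Prime] (hADD : S_ADD p n) : S_PL p n := by
  intro ℓ B a c t h hd ht H
  have H1 : ∀ x y, ∃ α β : Mat p n, I2 ℓ B a x y → Rel ℓ B a c t x y α β := fun x y => by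
    by_cases I : I2 ℓ B a x y
    swap
    · exact ⟨0, 0, fun e => (I e).elim⟩
    obtain ⟨_, ⟨C, hC, rfl⟩, _, ⟨D, hD, rfl⟩, e⟩ :=
      Submodule.mem_sup.1 (H x I.1 I.2.2.1 y I.2.1 I.2.2.2)
    refine ⟨_, _, fun _ => ⟨cb_of_com h.alg hC c a, cb_of_com h.alg hD c a, ?_⟩⟩
    rw [cb_comp c I.1, cb_comp c I.2.1, ← Matrix.mulVec_add]
    simp only [evx_apply] at e
    rw [e]
    exact (mem_Vb_iff.1 (sub_mem (sub_mem (ht _ (add_mem I.1 I.2.1)) (ht _ I.1))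
      (ht _ I.2.1))).symm
  choose A A' hA using H1
  obtain ⟨lam, hl, hl'⟩ := lam_ex (c := c) h hd (D := fun x y => A x y - A' x y)
    (fun x y I => sub_mem (hA x y I).1 (hA x y I).2.1)
    (fun x y I => by
      obtain ⟨e1, e2⟩ := Rel.uniq h I (hA x y I) (hA y x (I.symm h)).symm
      simp only [e1, e2, neg_sub])
    (fun x y z I => coc h hA I)
  have H2 : ∀ x y, I2 ℓ B a x y → Rel ℓ B a c (fun x => t x + lam x *ᵥ x) x y
      (A x y - lam x + lam (x + y)) (A x y - lam x + lam (x + y)) := fun x y I => by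
    have m : A x y - lam x + lam (x + y) ∈ Cb ℓ B c a :=
      add_mem (sub_mem (hA x y I).1 (hl x I.1 I.2.2.1)) (hl _ (add_mem I.1 I.2.1) I.add_ne)
    refine ⟨m, m, ?_⟩
    have e1 := (hA x y I).2.2
    have e2 := congrArg (· *ᵥ y) (hl' x y I)
    simp only [Matrix.sub_mulVec, Matrix.add_mulVec, Matrix.mulVec_add] at e2 ⊢
    linear_combination (exp := 1) e1 + e2
  obtain ⟨L, hL⟩ := hADD ℓ B 0 0 ⊥ ⊥ a (fun x => t x + lam x *ᵥ x) h small_bot small_bot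
    (by omega) fun x hx _ hx0 y hy _ hxy => by
      have I : I2 ℓ B a x y := ⟨hx, hy, fun e => hx0 (e ▸ zero_mem _),
        fun e => hxy (Submodule.mem_sup_right e)⟩
      obtain ⟨z, hz, e⟩ := out4 h hd hx hy hy hy
      have J : I3 ℓ B a x y z :=
        ⟨I, hz, fun f => e (Submodule.mem_sup_left (Submodule.mem_sup_left f))⟩
      obtain ⟨e1, _, e3⟩ := tri h J (H2 _ _ I) (H2 _ _ (J.s23 h).1) (H2 _ _ J.add)
        (H2 _ _ (J.s23 h).add)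
      have e4 : A x y - lam x + lam (x + y) = 0 := by
        linear_combination (norm := abel) e1 - e3
      have e5 := (H2 _ _ I).2.2
      rw [e4, Matrix.zero_mulVec, Matrix.zero_mulVec, add_zero] at e5
      linear_combination (exp := 1) e5
  refine ⟨pr ℓ c * LinearMap.toMatrix' L * pr ℓ a, ?_, fun x hx hx0 => ?_⟩
  · rw [← mul_assoc, ← mul_assoc, pr_mul_pr, mul_assoc, pr_mul_pr]
  · have h1 : LinearMap.toMatrix' L *ᵥ x = L x :=
      (Matrix.toLin'_apply _ x).symm.trans (by rw [Matrix.toLin'_toMatrix'])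
    rw [cb_comp c hx, h1, hL x hx (by simp) fun e => hx0 ((Submodule.mem_bot _).1 e),
      mem_Vb_iff.1 (add_mem (ht x hx) (cb_mulVec_mem (hl x hx hx0) x)), add_sub_cancel_left]
    exact mem_orb.2 ⟨_, (hl x hx hx0).1, rfl⟩

end Pool.Agent.P.MP_f1a348_lc.CF
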