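import Pool.Agent.P.MP_f1a348_lc.PG.Iface

/-! Project PG: popular vectors span a small space. -/

namespace Pool.Agent.P.MP_f1a348_lc.CF

open Pool.Agent.P.MP_f1a348_lc.PG

open Module

namespace POPx

variable {K Y : Type} [Field K] [AddCommGroup Y] [Module K Y] [Module.Finite K Y]

theorem sup_le {ι : Type} (W : ι → Submodule K Y) (r : ℕ) (h : ∀ j, finrank K (W j) ≤ r)
    (s : Finset ι) : finrank K (s.sup W : Submodule K Y) ≤ s.card * r := by
  classical
  induction s using Finset.induction_on with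
  | empty => simp
  | insert a s ha ih =>
    rw [Finset.sup_insert, Finset.card_insert_of_notMem ha, add_mul, one_mul, add_comm]
    exact (Submodule.finrank_add_le_finrank_add_finrank _ _).trans (add_le_add (h a) ih)

theorem iSup_le {t : ℕ} (W : Fin t → Submodule K Y) (r : ℕ) (h : ∀ j, finrank K (W j) ≤ r) :
    finrank K (⨆ j, W j : Submodule K Y) ≤ t * r := by
  have := sup_le W r h Finset.univ
  rwa [Finset.sup_univ_eq_iSup, Finset.card_univ, Fintype.card_fin] at this

theorem card_le {s : Finset Y} (hs : LinearIndepOn K id (s : Set Y)) {W : Submodule K Y}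
    (h : ∀ v ∈ s, v ∈ W) : s.card ≤ finrank K W := by
  rw [← finrank_span_finset_eq_card hs]
  exact Submodule.finrank_mono (Submodule.span_le.2 h)

end POPx

theorem s_POP (p : ℕ) [Fact p.Prime] : S_POP p := by
  intro Q X Y _ _ _ _ _ _ S A r t hS h
  classical
  have _ := Fintype.ofFinite Q
  obtain ⟨b, hb, hsp, hli⟩ := exists_linearIndependent (ZMod p) (Pop A S t)
  lift b to Finset Y using hli.setFinite
  have hli' : LinearIndepOn (ZMod p) id (b : Set Y) := hli
  rw [← hsp, finrank_span_finset_eq_card hli']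
  set Ts : Finset (Fin t → Q) := Finset.univ.filter fun qs => ∀ j, qs j ∈ S with hTs
  have hpos : 0 < Ts.card := by
    obtain ⟨q, hq⟩ := hS
    exact Finset.card_pos.2 ⟨fun _ => q, by simp [hTs, hq]⟩
  let R : Y → (Fin t → Q) → Prop := fun v qs => v ∈ ⨆ j, LinearMap.range (A (qs j))
  have e := Finset.sum_card_bipartiteAbove_eq_sum_card_bipartiteBelow (s := b) (t := Ts) R
  have e1 : b.card • Ts.card ≤ ∑ v ∈ b, 2 * (Ts.bipartiteAbove R v).card := by
    refine Finset.card_nsmul_le_sum _ _ _ fun v hv => ?_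
    have h1 := hb hv
    rw [Pop, Set.mem_ofPred_eq] at h1
    have h2 : {qs : Fin t → Q | ∀ j, qs j ∈ S} = (Ts : Set (Fin t → Q)) := by
      ext qs; simp [hTs]
    have h3 : {qs : Fin t → Q | (∀ j, qs j ∈ S) ∧ v ∈ ⨆ j, LinearMap.range (A (qs j))} =
        (Ts.bipartiteAbove R v : Set (Fin t → Q)) := by
      ext qs; simp [hTs, R]
    rwa [h2, h3, Set.ncard_coe_finset, Set.ncard_coe_finset] at h1
  have e2 : ∑ qs ∈ Ts, (b.bipartiteBelow R qs).card ≤ Ts.card • (t * r) := by
    refine Finset.sum_le_card_nsmul _ _ _ fun qs hq => ?_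
    have hq' : ∀ j, qs j ∈ S := by simpa [hTs] using hq
    refine le_trans (POPx.card_le (hli'.mono fun v hv => ?_) fun v hv => ?_)
      (POPx.iSup_le (fun j => LinearMap.range (A (qs j))) r fun j => h _ (hq' j))
    · exact ((Finset.mem_bipartiteBelow R).1 (Finset.mem_coe.1 hv)).1
    · exact ((Finset.mem_bipartiteBelow R).1 hv).2
  rw [← Finset.mul_sum, e, smul_eq_mul] at e1
  rw [smul_eq_mul] at e2
  refine Nat.le_of_mul_le_mul_right ?_ hpos
  calc b.card * Ts.card ≤ 2 * (Ts.card * (t * r)) := e1.trans (Nat.mul_le_mul_left _ e2)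
    _ = 2 * t * r * Ts.card := by ring

end Pool.Agent.P.MP_f1a348_lc.CF
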