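import Pool.Agent.P.MP_f1a348_lc.PG.Iface

/-! Project PG: task REL. -/

namespace Pool.Agent.P.MP_f1a348_lc.CF

open Pool.Agent.P.MP_f1a348_lc.PG

open Matrix Module

namespace RELx

variable {p n : ℕ} {ℓ : Ix n → ℕ} {B : Sub p n}

theorem uniq (h : Str ℓ B) {R : VS p n} (hR : Stab B R) {a c : Ix n} {C : Mat p n}
    (hC : C ∈ Cb ℓ B c a) {y : Vec p n} (hy : y ∈ Vb ℓ a) (hn : y ∉ R) (hm : C *ᵥ y ∈ R) :
    C = 0 := by
  by_cases e : C *ᵥ y = 0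
  · exact cb_inj h hC hy (fun e0 => hn (e0 ▸ R.zero_mem)) e
  · exact absurd (mem_of_mulVec_mem h hR hy (mem_Cb.1 hC).1 e hm) hn

/-- the vector that represents `β x` on the block of `b` -/
noncomputable def rep (ℓ : Ix n → ℕ) (b : Ix n)
    (β : Vec p n →ₗ[ZMod p] Vec p n →ₗ[ZMod p] ZMod p) (x : Vec p n) : Vec p n :=
  pr ℓ b.rev *ᵥ fun α => β x (Pi.single α.rev 1)

theorem rep_add (b : Ix n) (β : Vec p n →ₗ[ZMod p] Vec p n →ₗ[ZMod p] ZMod p) (x y : Vec p n) :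
    rep ℓ b β (x + y) = rep ℓ b β x + rep ℓ b β y := by
  unfold rep
  rw [← Matrix.mulVec_add]
  congr 1
  funext α
  simp

theorem ip_rep (h : Lab ℓ) {b : Ix n} (β : Vec p n →ₗ[ZMod p] Vec p n →ₗ[ZMod p] ZMod p)
    (x : Vec p n) {y : Vec p n} (hy : y ∈ Vb ℓ b) : ip (rep ℓ b β x) y = β x y := by
  rw [rep, ip_pr h hy, ip]
  have e : y = ∑ α : Ix n, y α.rev • (Pi.single α.rev 1 : Vec p n) := by
    rw [sum_rev (fun α => y α • (Pi.single α 1 : Vec p n))]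
    funext γ
    simp [Finset.sum_apply, Pi.single_apply]
  conv_rhs => rw [e, map_sum]
  exact Finset.sum_congr rfl fun α _ => by rw [map_smul, smul_eq_mul, mul_comm]

end RELx

open RELx in
theorem s_REL (p n : ℕ) [Fact p.Prime] : S_REL p n := by
  intro ℓ B r r' W W' a b h hW hW' _ hd
  obtain ⟨x0, hx0, hp0, hn0⟩ := out h hW hW' (b := a) (by omega)
  refine ⟨fun β hβ => ?_, fun C hC H => ?_⟩
  swap
  · exact uniq h hW'.1 hC hx0 hn0
      (mem_of_ip h.lab h.alg hW'.1 (cb_mulVec_mem hC x0) (H x0 hx0 hp0))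
  have exP : ∀ x ∈ Vb ℓ a, x ∈ perp W →
      ∃ C ∈ Cb ℓ B b.rev a, rep ℓ b β x - C *ᵥ x ∈ W' := by
    intro x hx hxp
    have hA : rep ℓ b β x ∈ Vb ℓ b.rev := pr_mulVec_mem _ _
    have h1 : rep ℓ b β x ∈ W' ⊔ orb (Co ℓ B) x :=
      mem_of_ip h.lab h.alg (hW'.1.sup (stab_orb_co x)) hA fun y hy hyp => by
        rw [ip_rep h.lab β x hy]
        exact hβ x hx hxp y hy (mem_perp_sup.1 hyp).1 (mem_perp_sup.1 hyp).2
    obtain ⟨w, hw, z, hz, e⟩ := Submodule.mem_sup.1 h1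
    obtain ⟨C, hC, rfl⟩ := mem_orb.1 hz
    refine ⟨_, cb_of_com h.alg (co_le_com hC) b.rev a, ?_⟩
    rw [cb_comp _ hx, ← mem_Vb_iff.1 hA, ← Matrix.mulVec_sub, ← e, add_sub_cancel_right]
    exact hW'.1 _ (com_pr h.alg _) w hw
  have ind : ∀ x ∈ Vb ℓ a, x ∈ perp W → ∀ y ∈ Vb ℓ a, y ∈ perp W → x ∉ W' →
      y ∉ W' ⊔ orb (Com B) x → ∀ C1 ∈ Cb ℓ B b.rev a, ∀ C2 ∈ Cb ℓ B b.rev a,
      rep ℓ b β x - C1 *ᵥ x ∈ W' → rep ℓ b β y - C2 *ᵥ y ∈ W' → C1 = C2 := by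
    intro x hx hxp y hy hyp hxn hyn C1 hC1 C2 hC2 h1 h2
    obtain ⟨C3, hC3, h3⟩ := exP (x + y) (add_mem hx hy) (add_mem hxp hyp)
    have h4 : (C1 - C3) *ᵥ x + (C2 - C3) *ᵥ y ∈ W' := by
      have := sub_mem h3 (add_mem h1 h2)
      rw [rep_add, Matrix.mulVec_add] at this
      rw [Matrix.sub_mulVec, Matrix.sub_mulVec]
      refine (congrArg (· ∈ W') ?_).mp this
      abel
    have h5 : C2 - C3 = 0 := by
      refine uniq h (hW'.1.sup (stab_orb x)) (sub_mem hC2 hC3) hy hyn ?_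
      have h6 : (C1 - C3) *ᵥ x ∈ orb (Com B) x :=
        mem_orb.2 ⟨_, (mem_Cb.1 (sub_mem hC1 hC3)).1, rfl⟩
      have := sub_mem (Submodule.mem_sup_left (T := orb (Com B) x) h4) (Submodule.mem_sup_right h6)
      rwa [add_sub_cancel_left] at this
    rw [h5, Matrix.zero_mulVec, add_zero] at h4
    have h7 := uniq h hW'.1 (sub_mem hC1 hC3) hx hxn h4
    rw [sub_eq_zero.1 h5, sub_eq_zero.1 h7]
  obtain ⟨C, hC, hC0⟩ := exP x0 hx0 hp0
  refine ⟨C, hC, fun x hx hxp y hy hyp => ?_⟩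
  have hs := (hW'.sup h.alg (small_orb h hx0)).sup h.alg (small_orb h hx)
  obtain ⟨v, hv, hvp, hvn⟩ := out h hW hs (b := a) (by omega)
  obtain ⟨C1, hC1, h1⟩ := exP v hv hvp
  obtain ⟨C2, hC2, h2⟩ := exP (x + v) (add_mem hx hv) (add_mem hxp hvp)
  have e1 : C = C1 := ind x0 hx0 hp0 v hv hvp hn0 (fun hm => hvn (Submodule.mem_sup_left hm))
    C hC C1 hC1 hC0 h1
  have e2 : C = C2 := ind x0 hx0 hp0 (x + v) (add_mem hx hv) (add_mem hxp hvp) hn0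
    (fun hm => hvn (by
      have := sub_mem (Submodule.mem_sup_left (T := orb (Com B) x) hm)
        (Submodule.mem_sup_right (self_mem_orb x))
      rwa [add_sub_cancel_left] at this)) C hC C2 hC2 hC0 h2
  subst e1 e2
  have h3 : rep ℓ b β x - C *ᵥ x ∈ W' := by
    have := sub_mem h2 h1
    rw [rep_add, Matrix.mulVec_add] at this
    refine (congrArg (· ∈ W') ?_).mp this
    abel
  have h4 := mem_perp.1 hyp _ h3
  rw [ip_sub_left, ip_rep h.lab β x hy] at h4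
  exact sub_eq_zero.1 h4

end Pool.Agent.P.MP_f1a348_lc.CF
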