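import Pool.Agent.P.MP_f1a348_lc.PG.Iface

/-! Proof of SEP. -/

namespace Pool.Agent.P.MP_f1a348_lc.CF

open Pool.Agent.P.MP_f1a348_lc.PG

open Matrix Module

theorem s_SEP (p n : ℕ) [Fact p.Prime] (hSEPI : S_SEPI p n) (hTSM : S_TSM p n) :
    S_SEP p n := by
  intro ℓ B W b y h hW t hy h1 h2
  by_cases hI : Isot B y
  · obtain ⟨π, x, c1, c2, c3, c4, c5, c6, -⟩ := hSEPI ℓ B W b y h hW t hy hI h1 h2
    exact ⟨_, hTSM ℓ B π h c1 c2 c3, by rw [add_mulVec, c4, c5, add_zero], fun w hw => by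
      rw [add_mulVec, (c6 w hw).1, (c6 w hw).2, add_zero]⟩
  have hs := (stab_orb (B := B) y).perp h.alg
  have hd : Disjoint (orb (Com B) y) (perp (orb (Com B) y)) :=
    Submodule.disjoint_def.2 fun v hv hv' => by_contra fun e =>
      hI (isot_iff.2 (mem_of_orb h hs hy hv e hv'))
  have ht := Submodule.eq_top_of_disjoint _ _ (by
    rw [add_comm, finrank_perp]; simp) hd
  obtain ⟨ε, e1, e2, e3, e4, e5⟩ := proj_mem h ⟨hd, codisjoint_iff.2 ht⟩ (stab_orb y) hs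
  have key : ∀ u v, ip (ε *ᵥ u) v = ip (ε *ᵥ u) (ε *ᵥ v) := fun u v => by
    obtain ⟨o, ho, o', ho', rfl⟩ := Submodule.mem_sup.1 (ht ▸ Submodule.mem_top (x := v))
    rw [mulVec_add, e2 o ho, e3 o' ho', add_zero, ip_add_right, ho' _ (e5 u), add_zero]
  refine ⟨ε, ⟨e1, e4, mat_ext fun u => ip_ext fun v => ?_, ?_,
    ((small_orb h hy).of_le (stab_im e1) ?_).mono one_le_two⟩, e2 y (self_mem_orb y),
    fun w hw => e3 w (mem_perp_orb.2 fun C hC => ?_)⟩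
  · rw [← ip_mulVec_right, ip_comm, key, ip_comm, ← key]
  · rw [← (h.alg.dg ε e1).comm_eo]
    refine mat_ext fun u => ?_
    obtain ⟨C, hC, e⟩ := mem_orb.1 (e5 u)
    rw [← mulVec_mulVec, ← e, ← com_mulVec hC (eo_mem h), eo_mulVec_ntriv hy t]
  · rintro _ ⟨u, rfl⟩
    exact e5 u
  · rw [ip_mulVec, ip_comm]
    exact h1 _ (hW _ (com_st h.alg hC) w hw)

end Pool.Agent.P.MP_f1a348_lc.CF
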