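import Pool.Agent.P.MP_f1a348_lc.PG.Iface

/-! Project PG: forms that vanish on generic triples are traces. -/

namespace Pool.Agent.P.MP_f1a348_lc.CF

open Pool.Agent.P.MP_f1a348_lc.PG

open Matrix Module

namespace TRx

variable {p n : ℕ} [Fact p.Prime] {ℓ : Ix n → ℕ} {B : Sub p n}

theorem exch (h : Str ℓ B) {W : VS p n} (hW : Stab B W) {b b' : Ix n} {x y : Vec p n}
    (hx : x ∈ Vb ℓ b) (hy : y ∈ Vb ℓ b') (t : ¬ Triv ℓ B b') (h1 : y ∈ W ⊔ orb (Co ℓ B) x)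
    (h0 : y ∉ W) : ¬ Triv ℓ B b ∧ x ∈ W ⊔ orb (Co ℓ B) y := by
  have hb : ¬ Triv ℓ B b := fun e => by
    rw [orb_co_triv hx e, sup_bot_eq] at h1
    exact h0 h1
  rw [orb_co_ntriv h.alg hx hb] at h1
  rw [orb_co_ntriv h.alg hy t]
  exact ⟨hb, exchange h hW hx h1 h0⟩

theorem gen (h : Str ℓ B) {a : Fin 3 → Ix n} {x0 x1 x2 : Vec p n} (m0 : x0 ∈ Vb ℓ (a 0))
    (m1 : x1 ∈ Vb ℓ (a 1)) (m2 : x2 ∈ Vb ℓ (a 2)) (s0 : x0 ∈ perp (orb (Co ℓ B) x0))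
    (s1 : x1 ∈ perp (orb (Co ℓ B) x1)) (s2 : x2 ∈ perp (orb (Co ℓ B) x2))
    (o1 : x1 ∈ perp (orb (Co ℓ B) x0)) (o2 : x2 ∈ perp (orb (Co ℓ B) x0))
    (o3 : x2 ∈ perp (orb (Co ℓ B) x1)) (i0 : ¬ Triv ℓ B (a 0) → x0 ∉ (⊥ : VS p n))
    (i1 : ¬ Triv ℓ B (a 1) → x1 ∉ orb (Co ℓ B) x0)
    (i2 : ¬ Triv ℓ B (a 2) → x2 ∉ orb (Co ℓ B) x0 ⊔ orb (Co ℓ B) x1) :
    Gen ℓ B a ![x0, x1, x2] where
  mem j := by
    fin_cases j
    exacts [m0, m1, m2]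
  orth i j := by
    fin_cases i <;> fin_cases j
    exacts [s0, o1, o2, perp_orb_co_symm h o1, s1, o3, perp_orb_co_symm h o2,
      perp_orb_co_symm h o3, s2]
  ind j := by
    fin_cases j
    · intro t (e : x0 ∈ orb (Co ℓ B) x1 ⊔ orb (Co ℓ B) x2)
      by_cases e1 : x0 ∈ orb (Co ℓ B) x1
      · obtain ⟨t1, e2⟩ := exch h stab_bot m1 m0 t (by rwa [bot_sup_eq]) (i0 t)
        rw [bot_sup_eq] at e2
        exact i1 t1 e2
      · obtain ⟨t2, e2⟩ := exch h (stab_orb_co x1) m2 m0 t e e1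
        rw [sup_comm] at e2
        exact i2 t2 e2
    · intro t (e : x1 ∈ orb (Co ℓ B) x2 ⊔ orb (Co ℓ B) x0)
      rw [sup_comm] at e
      obtain ⟨t2, e2⟩ := exch h (stab_orb_co x0) m2 m1 t e (i1 t)
      exact i2 t2 e2
    · exact i2

theorem slot (hSP : S_SP p n) (h : Str ℓ B) (hb : Big ℓ B 30) {W R : VS p n}
    (hW : Small ℓ B 2 W) (hR : Small ℓ B 2 R) (w : Frm p n) (x : Fin 3 → Vec p n) (j : Fin 3)
    {b : Ix n} {y : Vec p n} (hy : y ∈ Vb ℓ b) (hyW : y ∈ perp W)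
    (H : ∀ v ∈ Vb ℓ b, v ∈ perp W → v ∈ perp (orb (Co ℓ B) v) → (¬ Triv ℓ B b → v ∉ R) →
      ev w (Function.update x j v) = 0) : ev w (Function.update x j y) = 0 := by
  by_cases t : Triv ℓ B b
  · exact H y hy hyW (triv_mem_perp h hy t y) fun t' => absurd t t'
  have h1 := hSP ℓ B 2 2 W R b y h hW hR t (le_trans (by norm_num) (hb b t)) hy hyW
  refine Submodule.span_induction (p := fun v _ => ev w (Function.update x j v) = 0) ?_ ?_ ?_ ?_ h1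
  · rintro v ⟨h2, h3, h4, h5⟩
    refine H v h2 h4 ?_ fun _ => h5
    rw [orb_co_ntriv h.alg h2 t]
    exact isot_iff.1 h3
  · exact ev_slot_zero w (j := j) (by simp)
  · intro u v _ _ hu hv
    rw [ev_update_add, hu, hv, add_zero]
  · intro c u _ hu
    rw [ev_update_smul, hu, mul_zero]

omit [Fact p.Prime] in
theorem up0 (x0 x1 x2 v : Vec p n) : Function.update ![x0, x1, x2] 0 v = ![v, x1, x2] := by
  funext k
  fin_cases k <;> rfl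

omit [Fact p.Prime] in
theorem up1 (x0 x1 x2 v : Vec p n) : Function.update ![x0, x1, x2] 1 v = ![x0, v, x2] := by
  funext k
  fin_cases k <;> rfl

omit [Fact p.Prime] in
theorem up2 (x0 x1 x2 v : Vec p n) : Function.update ![x0, x1, x2] 2 v = ![x0, x1, v] := by
  funext k
  fin_cases k <;> rfl

theorem all (hSP : S_SP p n) (h : Str ℓ B) (hb : Big ℓ B 30) {a : Fin 3 → Ix n} {w : Frm p n}
    (H : ∀ x, Gen ℓ B a x → ev w x = 0) {x0 x1 x2 : Vec p n} (m0 : x0 ∈ Vb ℓ (a 0))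
    (m1 : x1 ∈ Vb ℓ (a 1)) (m2 : x2 ∈ Vb ℓ (a 2)) (o1 : x0 ∈ perp (orb (Co ℓ B) x1))
    (o2 : x0 ∈ perp (orb (Co ℓ B) x2)) (o3 : x1 ∈ perp (orb (Co ℓ B) x2)) :
    ev w ![x0, x1, x2] = 0 := by
  rw [← up0 0]
  refine slot hSP h hb ((small_orb_co h m1).sup h.alg (small_orb_co h m2))
    (small_bot.mono (by norm_num)) w _ 0 m0 (mem_perp_sup.2 ⟨o1, o2⟩) fun v0 n0 q0 s0 i0 => ?_
  obtain ⟨q1, q2⟩ := mem_perp_sup.1 q0
  rw [up0, ← up1 _ 0]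
  refine slot hSP h hb ((small_orb_co h n0).sup h.alg (small_orb_co h m2))
    ((small_orb_co h n0).mono (by norm_num)) w _ 1 m1
    (mem_perp_sup.2 ⟨perp_orb_co_symm h q1, o3⟩) fun v1 n1 r0 s1 i1 => ?_
  obtain ⟨r1, r2⟩ := mem_perp_sup.1 r0
  rw [up1, ← up2 _ _ 0]
  refine slot hSP h hb ((small_orb_co h n0).sup h.alg (small_orb_co h n1))
    ((small_orb_co h n0).sup h.alg (small_orb_co h n1)) w _ 2 m2
    (mem_perp_sup.2 ⟨perp_orb_co_symm h q2, perp_orb_co_symm h r2⟩) fun v2 n2 u0 s2 i2 => ?_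
  obtain ⟨u1, u2⟩ := mem_perp_sup.1 u0
  rw [up2]
  exact H _ (gen h n0 n1 n2 s0 s1 s2 r1 u1 u2 i0 i1 i2)

end TRx

open TRx in
theorem s_TR (p n : ℕ) [Fact p.Prime] (hSP : S_SP p n) (hPEEL : S_PEEL p n) :
    S_TR p n := by
  intro ℓ B a w h hb hw H
  obtain ⟨w1, t1, e1⟩ := hPEEL ℓ B a 0 (fun _ => True) w h hb fun x hx ho => by
    have hx' : x = ![x 0, x 1, x 2] := by
      funext k
      fin_cases k <;> rfl
    rw [hx']
    exact all hSP h hb H (hx 0) (hx 1) (hx 2) (perp_orb_co_symm h (ho 2 (Or.inl trivial)))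
      (ho 1 (Or.inl trivial)) (perp_orb_co_symm h (ho 0 (Or.inl trivial)))
  obtain ⟨w2, t2, e2⟩ := hPEEL ℓ B a 1 (fun k => k ≠ 0) (w - w1) h hb fun x hx ho => by
    rw [ev_sub, e1 x hx fun k _ hk => ho k (Or.inl hk), sub_self]
  obtain ⟨w3, t3, e3⟩ := hPEEL ℓ B a 2 (fun _ => False) (w - w1 - w2) h hb fun x hx ho => by
    rw [ev_sub, e2 x hx fun k h0 h1 => ho k (Or.inr (by omega)), sub_self]
  have e : w = cmp ℓ (key ℓ a) (w1 + w2 + w3) := by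
    refine Wt_ext h.lab hw (cmp_mem _ _) fun x hx => ?_
    have h1 := e3 x hx fun k h0 => h0.elim
    rw [ev_sub, ev_sub] at h1
    rw [ev_cmp h.lab _ hx, ev_add, ev_add, ← h1]
    ring
  rw [e]
  exact cmp_mem_Tr h _ (add_mem (add_mem t1 t2) t3)

end Pool.Agent.P.MP_f1a348_lc.CF
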