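import Pool.Agent.P.MP_f1a348_lc.CF.TACCT
import Pool.Agent.P.MP_f1a348_lc.CF.TADD
import Pool.Agent.P.MP_f1a348_lc.CF.TBIL
import Pool.Agent.P.MP_f1a348_lc.CF.TCLS
import Pool.Agent.P.MP_f1a348_lc.CF.TCLS2
import Pool.Agent.P.MP_f1a348_lc.CF.TCMP
import Pool.Agent.P.MP_f1a348_lc.CF.TCST
import Pool.Agent.P.MP_f1a348_lc.CF.TCUT
import Pool.Agent.P.MP_f1a348_lc.CF.TCW
import Pool.Agent.P.MP_f1a348_lc.CF.TDEC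
import Pool.Agent.P.MP_f1a348_lc.CF.TDFR
import Pool.Agent.P.MP_f1a348_lc.CF.TDUAL
import Pool.Agent.P.MP_f1a348_lc.CF.TEBAS
import Pool.Agent.P.MP_f1a348_lc.CF.TETA
import Pool.Agent.P.MP_f1a348_lc.CF.TG1
import Pool.Agent.P.MP_f1a348_lc.CF.TG2
import Pool.Agent.P.MP_f1a348_lc.CF.TGAIN
import Pool.Agent.P.MP_f1a348_lc.CF.TGAIN0
import Pool.Agent.P.MP_f1a348_lc.CF.THALF
import Pool.Agent.P.MP_f1a348_lc.CF.THINV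
import Pool.Agent.P.MP_f1a348_lc.CF.TINV
import Pool.Agent.P.MP_f1a348_lc.CF.TL1
import Pool.Agent.P.MP_f1a348_lc.CF.TLAMAA
import Pool.Agent.P.MP_f1a348_lc.CF.TLOC
import Pool.Agent.P.MP_f1a348_lc.CF.TLOC1
import Pool.Agent.P.MP_f1a348_lc.CF.TLOC2
import Pool.Agent.P.MP_f1a348_lc.CF.TMID
import Pool.Agent.P.MP_f1a348_lc.CF.TMKG
import Pool.Agent.P.MP_f1a348_lc.CF.TNAT1
import Pool.Agent.P.MP_f1a348_lc.CF.TNAT2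
import Pool.Agent.P.MP_f1a348_lc.CF.TNAT3
import Pool.Agent.P.MP_f1a348_lc.CF.TPC0
import Pool.Agent.P.MP_f1a348_lc.CF.TPCK
import Pool.Agent.P.MP_f1a348_lc.CF.TPCS
import Pool.Agent.P.MP_f1a348_lc.CF.TPEEL
import Pool.Agent.P.MP_f1a348_lc.CF.TPIN
import Pool.Agent.P.MP_f1a348_lc.CF.TPL
import Pool.Agent.P.MP_f1a348_lc.CF.TPLP
import Pool.Agent.P.MP_f1a348_lc.CF.TPLP1
import Pool.Agent.P.MP_f1a348_lc.CF.TPLP4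
import Pool.Agent.P.MP_f1a348_lc.CF.TPLP5
import Pool.Agent.P.MP_f1a348_lc.CF.TPOP
import Pool.Agent.P.MP_f1a348_lc.CF.TPOPN
import Pool.Agent.P.MP_f1a348_lc.CF.TREF
import Pool.Agent.P.MP_f1a348_lc.CF.TREL
import Pool.Agent.P.MP_f1a348_lc.CF.TSEP
import Pool.Agent.P.MP_f1a348_lc.CF.TSPL
import Pool.Agent.P.MP_f1a348_lc.CF.TTR
import Pool.Agent.P.MP_f1a348_lc.CF.TTSM

/-!
Project CF: the statements of the project PG that hold for every prime, without hypotheses.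
-/

namespace Pool.Agent.P.MP_f1a348_lc.CF

open Pool.Agent.P.MP_f1a348_lc.PG

theorem a_CW (p : ℕ) [Fact p.Prime] (n : ℕ) : S_CW p n :=
  CF.s_CW p n

theorem a_TSM (p : ℕ) [Fact p.Prime] (n : ℕ) : S_TSM p n :=
  CF.s_TSM p n

theorem a_REL (p : ℕ) [Fact p.Prime] (n : ℕ) : S_REL p n :=
  CF.s_REL p n

theorem a_PEEL (p : ℕ) [Fact p.Prime] (n : ℕ) : S_PEEL p n :=
  CF.s_PEEL p n (a_REL p n)

theorem a_LAMAA (p : ℕ) [Fact p.Prime] (n : ℕ) : S_LAMAA p n :=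
  CF.s_LAMAA p n

theorem a_ADD (p : ℕ) [Fact p.Prime] (n : ℕ) : S_ADD p n :=
  CF.s_ADD p n

theorem a_PL (p : ℕ) [Fact p.Prime] (n : ℕ) : S_PL p n :=
  CF.s_PL p n (a_ADD p n)

theorem a_ETA (p : ℕ) [Fact p.Prime] (n : ℕ) : S_ETA p n :=
  CF.s_ETA p n

theorem a_EBAS (p : ℕ) [Fact p.Prime] (n : ℕ) : S_EBAS p n :=
  CF.s_EBAS p n

theorem a_LOC1 (p : ℕ) [Fact p.Prime] (n : ℕ) : S_LOC1 p n :=
  CF.s_LOC1 p n (a_EBAS p n)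

theorem a_LOC2 (p : ℕ) [Fact p.Prime] (n : ℕ) : S_LOC2 p n :=
  CF.s_LOC2 p n

theorem a_LOC (p : ℕ) [Fact p.Prime] (n : ℕ) : S_LOC p n :=
  CF.s_LOC p n (a_EBAS p n) (a_LOC1 p n) (a_LOC2 p n)

theorem a_CLS (p : ℕ) [Fact p.Prime] (n : ℕ) : S_CLS p n :=
  CF.s_CLS p n

theorem a_CLS2 (p : ℕ) [Fact p.Prime] (n : ℕ) : S_CLS2 p n :=
  CF.s_CLS2 p n (a_CLS p n)

theorem a_ACCT : S_ACCT :=
  CF.s_ACCT

theorem a_GAIN0 (p : ℕ) [Fact p.Prime] (n : ℕ) : S_GAIN0 p n :=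
  CF.s_GAIN0 p n (a_ETA p n) (a_LOC p n) (a_CLS p n) (a_CLS2 p n) a_ACCT

theorem a_REF (p : ℕ) [Fact p.Prime] (n : ℕ) : S_REF p n :=
  CF.s_REF p n

theorem a_GAIN (p : ℕ) [Fact p.Prime] (n : ℕ) : S_GAIN p n :=
  CF.s_GAIN p n (a_GAIN0 p n) (a_REF p n)

theorem a_G1 (p : ℕ) [Fact p.Prime] (n : ℕ) : S_G1 p n :=
  CF.s_G1 p n

theorem a_G2 (p : ℕ) [Fact p.Prime] (n : ℕ) : S_G2 p n :=
  CF.s_G2 p n

theorem a_ACC0 (p : ℕ) [Fact p.Prime] (n : ℕ) : S_ACC0 p n :=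
  s_ACC0 (a_GAIN p n) (a_G1 p n)

theorem a_PIN (p : ℕ) [Fact p.Prime] (n : ℕ) : S_PIN p n :=
  CF.s_PIN p n (a_GAIN p n) (a_ACC0 p n)

theorem a_CMP (p : ℕ) [Fact p.Prime] : S_CMP p :=
  CF.s_CMP p

theorem a_L1 (p : ℕ) [Fact p.Prime] : S_L1 p :=
  CF.s_L1 p (a_CMP p)

theorem a_HALF (p : ℕ) [Fact p.Prime] : S_HALF p :=
  CF.s_HALF p (a_L1 p)

theorem a_POP (p : ℕ) [Fact p.Prime] : S_POP p :=
  CF.s_POP p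

theorem a_POPN (p : ℕ) [Fact p.Prime] : S_POPN p :=
  CF.s_POPN p

theorem a_DEC (p : ℕ) [Fact p.Prime] (n : ℕ) : S_DEC p n :=
  CF.s_DEC p n

theorem a_HINV (p : ℕ) [Fact p.Prime] (n : ℕ) : S_HINV p n :=
  CF.s_HINV p n (a_DEC p n) (a_POPN p)

theorem a_PLP1 (p : ℕ) [Fact p.Prime] (n : ℕ) : S_PLP1 p n :=
  CF.s_PLP1 p n (a_GAIN p n) (a_G2 p n) (a_ACC0 p n)

theorem a_PLP4 (p : ℕ) [Fact p.Prime] (n : ℕ) : S_PLP4 p n :=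
  CF.s_PLP4 p n (a_GAIN p n) (a_G2 p n)

theorem a_PLP5 (p : ℕ) [Fact p.Prime] (n : ℕ) : S_PLP5 p n :=
  CF.s_PLP5 p n (a_HALF p) (a_POP p) (a_DEC p n)

theorem a_PLP (p : ℕ) [Fact p.Prime] (n : ℕ) : S_PLP p n :=
  CF.s_PLP p n (a_PLP1 p n) (a_PLP4 p n) (a_PLP5 p n) (a_HINV p n) (a_ACC0 p n)

theorem a_NAT1 (p : ℕ) [Fact p.Prime] (n : ℕ) : S_NAT1 p n :=
  CF.s_NAT1 p n

theorem a_NAT2 (p : ℕ) [Fact p.Prime] (n : ℕ) : S_NAT2 p n :=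
  CF.s_NAT2 p n (a_NAT1 p n)

theorem a_NAT3 (p : ℕ) [Fact p.Prime] (n : ℕ) : S_NAT3 p n :=
  CF.s_NAT3 p n (a_POPN p)

theorem a_CUT (n : ℕ) : S_CUT n :=
  CF.s_CUT n

theorem a_SPL (p : ℕ) [Fact p.Prime] (n : ℕ) : S_SPL p n :=
  CF.s_SPL p n (a_CUT n)

theorem a_MKG (p : ℕ) [Fact p.Prime] (n : ℕ) : S_MKG p n :=
  CF.s_MKG p n

theorem a_INV (p : ℕ) [Fact p.Prime] (n : ℕ) : S_INV p n :=
  CF.s_INV p n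

theorem a_PC0 (p : ℕ) [Fact p.Prime] (n : ℕ) : S_PC0 p n :=
  CF.s_PC0 p n

theorem a_PCS (p : ℕ) [Fact p.Prime] (n : ℕ) : S_PCS p n :=
  CF.s_PCS p n

theorem a_PCK (p : ℕ) [Fact p.Prime] (n : ℕ) : S_PCK p n :=
  CF.s_PCK p n (a_PCS p n)

theorem a_CST (p : ℕ) [Fact p.Prime] (n : ℕ) : S_CST p n :=
  CF.s_CST p n

end Pool.Agent.P.MP_f1a348_lc.CF
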